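import Pool.Agent.Burn.HatBasic

/-!
# Paths in the cone-off metric   (task)

`H = S.hat ρ hρ`, `H.d u v = 1 ↔ hadj u v` (`hat_one`).  Induction on `H.d u v` using
`H.geo u v 1` (first edge of a geodesic).
-/

universe u

namespace Burn
namespace HSys

variable {X C : Type u} (S : HSys X C) (ρ : ℕ) (hρ : 2 ≤ ρ) [Nonempty X]

/-- (NEXT HOP) PROOF: first edge `base p - w` of a geodesic to `base z`.  If `w = base p'`: done.
Otherwise `w = lev e p _ 1`; `gate` for `u = base z`, `v = w` gives `p' ∈ Y e` between; then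
`E (base p') (base p) (base z) = 0`, and `p' ≠ p` since
`d (base p) (base z) = 1 + d w (base z) > d w (base z) ≥ d (base p') (base z)`. -/
theorem next_hop (p z : X) (h : p ≠ z) :
    ∃ p', p' ≠ p ∧ (S.hat ρ hρ).E (.base p') (.base p) (.base z) = 0 ∧
      (S.M.d p p' = 1 ∨ ∃ e, p ∈ S.Y e ∧ p' ∈ S.Y e) := by
  sorry

/-- (MIDPOINT) PROOF: take a midpoint `m`; if `m` is a base point take `z = z' = m`; otherwise
`m` is in the horoball of some `e`: `gate` on both sides. -/
theorem mid_hop (a b : X) :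
    ∃ z z', (S.hat ρ hρ).E (.base z) (.base a) (.base b) = 0 ∧
      (S.hat ρ hρ).E (.base z') (.base a) (.base b) = 0 ∧
      2 * (S.hat ρ hρ).d (.base a) (.base z) ≤ (S.hat ρ hρ).d (.base a) (.base b) + 1 ∧
      2 * (S.hat ρ hρ).d (.base z') (.base b) ≤ (S.hat ρ hρ).d (.base a) (.base b) + 1 ∧
      (z = z' ∨ ∃ e, z ∈ S.Y e ∧ z' ∈ S.Y e) := by
  sorry

/-- base points move by at most `2 ^ level` along an edge between non apex vertices -/
theorem edge_d {u v : HV S ρ} (h : S.hadj ρ u v) (hu : ∀ c, u ≠ .apex c)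
    (hv : ∀ c, v ≠ .apex c) : S.M.d (S.bp ρ u) (S.bp ρ v) ≤ 2 ^ (S.lvl ρ u) := by
  sorry

/-- projections to `Y e` along an edge not touching the apex of `e`.  PROOF: base-base: `≤ 17`
(`sep_lip`); vertical edges: `0`; horizontal edge in the horoball of `c ≠ e`, or edge at the apex
of `c ≠ e`: `≤ 463` (`proj_small`); horizontal in the horoball of `e`: `proj_of_mem`, `≤ 2^s`. -/
theorem edge_sep (e : C) {u v : HV S ρ} (h : S.hadj ρ u v) (hu : u ≠ .apex e)
    (hv : v ≠ .apex e) : S.sepH ρ e u v ≤ 463 * 2 ^ (S.lvl ρ u) := by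
  sorry

/-- (NEAR BASE) PROOF: induction on `n`, last edge `w - v` of a geodesic from `base x`: `w` is at
distance `n - 1 < ρ` of `base x`, so it is not an apex (`apex_far`) and `lvl w ≤ n - 1`. -/
theorem near_base (x : X) (v : HV S ρ) (n : ℕ) (h : (S.hat ρ hρ).d (.base x) v ≤ n)
    (hn : n ≤ ρ) (hv : ∀ c, v ≠ .apex c) :
    S.M.d x (S.bp ρ v) ≤ 2 ^ n ∧ ∀ e, S.sepH ρ e (.base x) v ≤ 463 * 2 ^ n := by
  sorry

/-- (BASE BASE) PROOF: a midpoint `m`, at distance `ℓ/2 < ρ` and `ℓ - ℓ/2 ≤ ρ` of the two ends; it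
is not an apex; `near_base` from both ends. -/
theorem base_base (x x' : X) (n : ℕ) (h : (S.hat ρ hρ).d (.base x) (.base x') ≤ 2 * n)
    (hn : n ≤ ρ) (hlt : (S.hat ρ hρ).d (.base x) (.base x') < 2 * ρ) :
    S.M.d x x' ≤ 2 * 2 ^ n ∧ ∀ e, S.sep e x x' ≤ 463 * (2 * 2 ^ n) := by
  sorry

/-- If the apex of `e` is not between `u` and `v` then the projection to `Y e` moves a bounded
amount per unit of length.  PROOF: induction on `H.d u v`, first edge `u - w`; `w ≠ apex e`
and `u, v ≠ apex e` because `E (apex e) u v ≠ 0`; the level is at most `ρ`; `edge_sep`. -/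
theorem sep_path (e : C) (u v : HV S ρ) (h : (S.hat ρ hρ).E (.apex e) u v ≠ 0) :
    S.sepH ρ e u v ≤ 463 * 2 ^ ρ * (S.hat ρ hρ).d u v := by
  sorry

end HSys
end Burn
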