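import Pool.Agent.Burn.Thin
import Pool.Agent.Burn.HatPath

/-!
# Points of `L a b` are close to geodesics of the cone-off   (task)

The constants do not depend on `ρ`.
-/

universe u

namespace Burn
namespace HSys

/-- (LOGARITHMIC BOUND), `h = κ + c + 1011`.  PROOF: induction on `k`.
`k = 0`: `a = b` or `S.M.d a b = 1` (adjacent base points, `hat_one`): `L_hop`.
Step: `mid_hop a b` gives `z, z'`, both between `a` and `b`, at distances `≤ 2^k` of `a`,
resp. `b`.  `thin` twice: `x` is within `2h` of some `x' ∈ L a z ∪ L z z' ∪ L z' b`.  For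
`L a z`, `L z' b` use the induction hypothesis and `btw_trans_left/right`; for `L z z'` use
`L_hop` (if `z = z'`, `d z z' = 0 ≤ 1`). -/
theorem log_bound {X C : Type u} (S : HSys X C) (ρ : ℕ) (hρ : 2 ≤ ρ) [Nonempty X] {c κ : ℤ}
    (hc : 16 ≤ c) (hκ : 503 ≤ κ) (k : ℕ) :
    ∀ a b x, (S.hat ρ hρ).d (.base a) (.base b) ≤ 2 ^ k → S.L c κ a b x →
      ∃ z, (S.hat ρ hρ).E (.base z) (.base a) (.base b) = 0 ∧
        S.M.d x z ≤ 2 * (κ + c + 1011) * k + (κ + c + 4) := by
  sorry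

/-- (ADD) There is a constant depending only on `c` and `κ` such that every point of `L a b` is
at cone-off distance at most `K` of a base point between `a` and `b` in the cone-off.

PROOF.  `d̂` = cone-off distance of base points; 'between' in the cone-off.  For `x ∈ L a b` let
`r(a,b,x)` be the minimum of `d̂ x z`, `z` a base point between `a` and `b` (`a` itself is one).
By `log_bound` and `hat_base_le`, `r` is bounded on the triples with `d̂ a b ≤ N`; let `f` be its
maximum there and `(a,b,x)` a triple with `r(a,b,x) = f`.  Let `z₀` between `a`, `b` with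
`d̂ x z₀ = f`; `h = κ + c + 1011`.
Left end: choose a base point `p` between `a` and `z₀` with `d̂ p z₀ > 2f + 4h` and `d̂ p z₀`
minimal such; if there is none put `p = p' = a` (so `d̂ p' z₀ ≤ 2f + 4h`).  If `p` exists let `p'` be
given by `next_hop p z₀`: `p'` is between `p` and `z₀`, `p' ≠ p`, so `d̂ p' z₀ < d̂ p z₀` and by
minimality `d̂ p' z₀ ≤ 2f + 4h`.  Similarly right end `q, q'` between `z₀` and `b`.
`thin` (at most 4 times): `x` is within `4h` of a point `x₁` of
`L a p ∪ L p p' ∪ L p' z₀ ∪ L z₀ q' ∪ L q' q ∪ L q b` (drop `L a p` if `p = p' = a`, etc.; use 5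
times thin with `5h` if convenient, adapting constants).
* `x₁ ∈ L a p` (when `p` is a genuine point): `d̂ a p ≤ N`, so some base point `z` between `a` and
  `p` has `d̂ x₁ z ≤ f`, `d̂ x z ≤ f + 4h`; but `d̂ z z₀ ≥ d̂ p z₀ > 2f + 4h` (as `p` is between `z`
  and `z₀`), so `d̂ x z ≥ d̂ z z₀ - f > f + 4h`, contradiction.  Same for `L q b`.
* `x₁ ∈ L p p'` or `L q' q`: `L_hop`: `f ≤ 4h + κ + c + 4` (`p, p'` are between `a` and `b`).
* `x₁ ∈ L p' z₀` or `L z₀ q'`: `log_bound` with `2^k ≥ 2f + 4h`, `k = clog₂ (2f+4h)`: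
  `f ≤ 4h + 2h k + κ + c + 4`.
In all cases `f ≤ 4h + 2h clog₂ (2f + 4h) + κ + c + 4`, which bounds `f` by a number depending
only on `h` (`clog₂ m ≤ m/(16h) + clog₂ (16 h) + 2` or any cruder argument). -/
theorem add_exists (c κ : ℤ) (hc : 16 ≤ c) (hκ : 503 ≤ κ) :
    ∃ K : ℤ, 0 ≤ K ∧ ∀ {X C : Type u} (S : HSys X C) (ρ : ℕ) (hρ : 2 ≤ ρ) [Nonempty X]
      (a b x : X), S.L c κ a b x →
      ∃ z, (S.hat ρ hρ).E (.base z) (.base a) (.base b) = 0 ∧
        (S.hat ρ hρ).d (.base x) (.base z) ≤ K := by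
  sorry

/-- the constant of ADD -/
noncomputable def KA (c κ : ℤ) : ℤ :=
  if h : 16 ≤ c ∧ 503 ≤ κ then (add_exists.{u} c κ h.1 h.2).choose else 0

theorem KA_nonneg (c κ : ℤ) : 0 ≤ KA.{u} c κ := by
  sorry

theorem add_near {X C : Type u} (S : HSys X C) (ρ : ℕ) (hρ : 2 ≤ ρ) [Nonempty X] {c κ : ℤ}
    (hc : 16 ≤ c) (hκ : 503 ≤ κ) {a b x : X} (h : S.L c κ a b x) :
    ∃ z, (S.hat ρ hρ).E (.base z) (.base a) (.base b) = 0 ∧
        (S.hat ρ hρ).d (.base x) (.base z) ≤ KA.{u} c κ := by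
  sorry

/-- additivity up to a constant -/
theorem add_E {X C : Type u} (S : HSys X C) (ρ : ℕ) (hρ : 2 ≤ ρ) [Nonempty X] {c κ : ℤ}
    (hc : 16 ≤ c) (hκ : 503 ≤ κ) {a b x : X} (h : S.L c κ a b x) :
    (S.hat ρ hρ).E (.base x) (.base a) (.base b) ≤ 2 * KA.{u} c κ := by
  sorry

end HSys
end Burn
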