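import Pool.Agent.Burn.IMet

/-!
# Chain lemma and loxodromic elements   (task)

Everything is integer arithmetic with `M.Hyp δ` (four point inequality) and `M.hyp_E`:
`E w x y ≤ E w x z + δ ∨ E w y z ≤ E w x z + δ`.
-/

universe u v

namespace Burn
namespace IMet

variable {V : Type u} (M : IMet V) {δ : ℤ}

/-- CHAIN LEMMA, one side.  PROOF: induction on `j - i`.  `j = i + 2` is the hypothesis.
Step (`j ≥ i + 3`): by induction `E (x (i+2)) (x (i+1)) (x j) ≤ a + δ`, and always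
`E_p(q,r) + E_q(p,r) = 2 d(p,q)`, so `E (x (i+1)) (x j) (x (i+2)) ≥ 2 d - (a+δ) ≥ a + δ + 2`
where `d = d (x (i+1)) (x (i+2)) ≥ a + δ + 1`.
By `hyp_E` at `x (i+1)` for the points `x i`, `x j`, `x (i+2)`:
`E (x(i+1)) (x i) (x j) ≤ E (x (i+1)) (x i) (x (i+2)) + δ ≤ a + δ`
or `E (x (i+1)) (x j) (x (i+2)) ≤ a + δ`, and the second is impossible. -/
theorem chain_left (h : M.Hyp δ) {a : ℤ} (x : ℕ → V) (m : ℕ)
    (h1 : ∀ i, i + 2 ≤ m → M.E (x (i + 1)) (x i) (x (i + 2)) ≤ a)
    (h2 : ∀ i, i + 3 ≤ m → a + δ + 1 ≤ M.d (x (i + 1)) (x (i + 2)))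
    (h0 : 0 ≤ a) (hδ : 0 ≤ δ) :
    ∀ i j, i + 2 ≤ j → j ≤ m → M.E (x (i + 1)) (x i) (x j) ≤ a + δ := by
  have key : ∀ n i : ℕ, i + 2 + n ≤ m → M.E (x (i + 1)) (x i) (x (i + 2 + n)) ≤ a + δ := by
    intro n
    induction n with
    | zero =>
      intro i hi
      have := h1 i (by omega)
      simpa using (by omega : M.E (x (i + 1)) (x i) (x (i + 2)) ≤ a + δ)
    | succ n ih =>
      intro i hi
      have e1 := ih (i + 1) (by omega)
      have e2 : i + 1 + 2 + n = i + 2 + (n + 1) := by omega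
      have e3 : i + 1 + 1 = i + 2 := by omega
      rw [e2, e3] at e1
      have e4 := h2 i (by omega)
      have e5 := h1 i (by omega)
      have e6 := M.hyp_E h (x (i + 1)) (x i) (x (i + 2 + (n + 1))) (x (i + 2))
      have s1 := M.symm (x (i + 1)) (x (i + 2))
      have s2 := M.symm (x (i + 1)) (x (i + 2 + (n + 1)))
      have s3 := M.symm (x (i + 2)) (x (i + 2 + (n + 1)))
      unfold E at *
      omega
  intro i j hij hj
  obtain ⟨n, rfl⟩ := Nat.exists_eq_add_of_le hij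
  exact key n i hj

/-- CHAIN LEMMA, two sides.  PROOF: apply `chain_left` to the chain and to the reversed chain
(`fun i => x (m - i)`), to get `E (x k) (x (k-1)) (x j) ≤ a + δ` and
`E (x (k-1)) (x k) (x i) ≤ a + δ` (if `i < k - 1`), hence
`E (x k) (x (k-1)) (x i) ≥ 2 d(x (k-1), x k) - a - δ > a + 2δ`; then `hyp_E` at `x k`
(points `x (k-1)`, `x j`, middle point `x i`). -/
theorem chain_both (h : M.Hyp δ) {a : ℤ} (x : ℕ → V) (m : ℕ)
    (h1 : ∀ i, i + 2 ≤ m → M.E (x (i + 1)) (x i) (x (i + 2)) ≤ a)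
    (h2 : ∀ i, i + 3 ≤ m → a + 2 * δ + 1 ≤ M.d (x (i + 1)) (x (i + 2)))
    (h0 : 0 ≤ a) (hδ : 0 ≤ δ) :
    ∀ i k j, i < k → k < j → j ≤ m → M.E (x k) (x i) (x j) ≤ a + 2 * δ := by
  intro i k j hik hkj hj
  obtain ⟨k, rfl⟩ : ∃ k', k = k' + 1 := ⟨k - 1, by omega⟩
  have hL := M.chain_left h x m h1 (fun i hi => by have := h2 i hi; omega) h0 hδ k j
    (by omega) hj
  rcases Nat.lt_or_ge i k with hik' | hik'
  · have hR := M.chain_left h (a := a) (fun i => x (m - i)) m (by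
      intro i hi
      have e := h1 (m - (i + 2)) (by omega)
      have e1 : m - (i + 2) + 1 = m - (i + 1) := by omega
      have e2 : m - (i + 2) + 2 = m - i := by omega
      rw [e1, e2, M.E_comm] at e
      exact e) (by
      intro i hi
      have e := h2 (m - (i + 3)) (by omega)
      have e1 : m - (i + 3) + 1 = m - (i + 2) := by omega
      have e2 : m - (i + 3) + 2 = m - (i + 1) := by omega
      rw [e1, e2, M.symm] at e
      show a + δ + 1 ≤ M.d (x (m - (i + 1))) (x (m - (i + 2)))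
      omega) h0 hδ (m - (k + 1)) (m - i) (by omega) (by omega)
    have e1 : m - (m - (k + 1) + 1) = k := by omega
    have e2 : m - (m - (k + 1)) = k + 1 := by omega
    have e3 : m - (m - i) = i := by omega
    simp only [e1, e2, e3] at hR
    obtain ⟨k, rfl⟩ : ∃ k', k = k' + 1 := ⟨k - 1, by omega⟩
    have e4 := h2 k (by omega)
    have e5 := M.hyp_E h (x (k + 1 + 1)) (x j) (x i) (x (k + 1))
    have e6 : k + 1 + 1 = k + 2 := by omega
    rw [e6] at *
    have s1 := M.symm (x (k + 1)) (x (k + 2))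
    have s2 := M.symm (x (k + 1)) (x i)
    have s3 := M.symm (x (k + 2)) (x i)
    have s4 := M.symm (x (k + 2)) (x j)
    have s5 := M.symm (x i) (x j)
    have s6 := M.symm (x (k + 1)) (x j)
    unfold E at *
    omega
  · have : i = k := by omega
    subst this
    omega

/-- Length of a chain.  PROOF: `d(x i, x m) = d(x i, x (i+1)) + d(x (i+1), x m) - E (x (i+1)) ..`
and `chain_left`; induction on the number of edges. -/
theorem chain_length (h : M.Hyp δ) {a ℓ : ℤ} (x : ℕ → V) (m : ℕ)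
    (h1 : ∀ i, i + 2 ≤ m → M.E (x (i + 1)) (x i) (x (i + 2)) ≤ a)
    (h2 : ∀ i, i + 1 ≤ m → ℓ ≤ M.d (x i) (x (i + 1)))
    (hℓ : a + δ + 1 ≤ ℓ) (h0 : 0 ≤ a) (hδ : 0 ≤ δ) :
    m * (ℓ - (a + δ)) ≤ M.d (x 0) (x m) := by
  have hL := M.chain_left h x m h1 (fun i hi => by
    have : ℓ ≤ M.d (x (i + 1)) (x (i + 2)) := h2 (i + 1) (by omega)
    omega) h0 hδ
  have key : ∀ n i : ℕ, i + n ≤ m → n * (ℓ - (a + δ)) ≤ M.d (x i) (x (i + n)) := by
    intro n
    induction n with
    | zero =>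
      intro i hi
      have := M.nonneg (x i) (x (i + 0))
      simpa using this
    | succ n ih =>
      intro i hi
      have e1 := ih (i + 1) (by omega)
      have e2 := h2 i (by omega)
      have e3 : i + 1 + n = i + (n + 1) := by omega
      rw [e3] at e1
      rcases Nat.eq_zero_or_pos n with rfl | hn
      · simp only [Nat.zero_add, Nat.cast_one, one_mul]
        omega
      · have e4 := hL i (i + (n + 1)) (by omega) hi
        unfold E at e4
        push_cast
        have e5 : ((n : ℤ) + 1) * (ℓ - (a + δ)) = n * (ℓ - (a + δ)) + (ℓ - (a + δ)) := by ring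
        rw [e5]
        omega
  have := key m 0 (by omega)
  rwa [Nat.zero_add] at this

variable {G : Type v} [Group G] [MulAction G V]

/-- Displacement of powers, upper bound.  PROOF: induction. -/
theorem disp_pow_le (hi : M.Inv G) (g : G) (x : V) (j : ℕ) :
    M.d x (g ^ j • x) ≤ j * M.d x (g • x) := by
  induction j with
  | zero => simp [M.self]
  | succ j ih =>
    have e1 := M.tri x (g ^ j • x) (g ^ (j + 1) • x)
    have e2 : g ^ (j + 1) • x = g ^ j • (g • x) := by rw [pow_succ, mul_smul]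
    rw [e2, hi (g ^ j) x (g • x)] at e1
    rw [e2]
    push_cast
    have e3 : ((j : ℤ) + 1) * M.d x (g • x) = j * M.d x (g • x) + M.d x (g • x) := by ring
    omega

/-- an integer with bounded nonnegative multiples is not positive -/
theorem nonpos_of_mul_bdd {t C : ℤ} (h : ∀ b : ℕ, (b : ℤ) * t ≤ C) : t ≤ 0 := by
  by_contra hc
  have hc' : 1 ≤ t := by omega
  have e := h (C.toNat + 1)
  have e1 : C ≤ (C.toNat : ℤ) := Int.self_le_toNat C
  push_cast at e
  nlinarith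

/-- the displacement changes by at most twice the distance -/
theorem disp_lip (hi : M.Inv G) (g : G) (x z : V) :
    M.d z (g • z) ≤ M.d x (g • x) + 2 * M.d x z := by
  have e1 := M.tri z x (g • z)
  have e2 := M.tri x (g • x) (g • z)
  rw [hi g x z] at e2
  have e3 := M.symm z x
  omega

/-- From linear growth along a subsequence of one orbit to all orbits.
PROOF: put `D = M.d x (g ^ j • x)`.  For every `b`:
`M.d x ((g^j)^(N*b) • x) ≤ N*b*D` (disp_pow_le), and
`M.d x (g^(N*(j*b)) • x) ≥ M.d z (g^(N*(j*b)) • z) - 2 M.d x z ≥ j*b - K - 2 M.d x z`.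
So `b * (j - N*D) ≤ K + 2 M.d x z` for all `b`, hence `j ≤ N * D` (take `b` large). -/
theorem stable (hi : M.Inv G) (g : G) (z : V) (K : ℤ) (N : ℕ)
    (hb : ∀ b : ℕ, (b : ℤ) - K ≤ M.d z (g ^ (N * b) • z)) (x : V) (j : ℕ) :
    (j : ℤ) ≤ N * M.d x (g ^ j • x) := by
  have key : ((j : ℤ) - N * M.d x (g ^ j • x)) ≤ 0 := by
    apply nonpos_of_mul_bdd (C := K + 2 * M.d x z)
    intro b
    have e1 := M.disp_pow_le hi (g ^ j) x (N * b)
    have e2 := hb (j * b)
    have e3 := M.disp_lip hi (g ^ (N * (j * b))) x z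
    have e4 : (g ^ j) ^ (N * b) = g ^ (N * (j * b)) := by
      rw [← pow_mul]; congr 1; ring
    rw [e4] at e1
    push_cast at e1 e2
    have e5 : (b : ℤ) * (j - N * M.d x (g ^ j • x)) = j * b - N * b * M.d x (g ^ j • x) := by
      ring
    rw [e5]
    omega
  omega

/-- The same with an arbitrary speed `c` and `N = 1`. -/
theorem stable' (hi : M.Inv G) (g : G) (z : V) (K c : ℤ)
    (hb : ∀ b : ℕ, c * b - K ≤ M.d z (g ^ b • z)) (x : V) (j : ℕ) :
    c * j ≤ M.d x (g ^ j • x) := by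
  have key : (c * j - M.d x (g ^ j • x)) ≤ 0 := by
    apply nonpos_of_mul_bdd (C := K + 2 * M.d x z)
    intro b
    have e1 := M.disp_pow_le hi (g ^ j) x b
    have e2 := hb (j * b)
    have e3 := M.disp_lip hi (g ^ (j * b)) x z
    rw [← pow_mul] at e1
    push_cast at e2
    have e5 : (b : ℤ) * (c * j - M.d x (g ^ j • x)) = c * (j * b) - b * M.d x (g ^ j • x) := by
      ring
    rw [e5]
    omega
  omega

/-- a point of minimal displacement -/
theorem exists_min_disp [Nonempty V] (g : G) :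
    ∃ x₀ : V, ∀ x, M.d x₀ (g • x₀) ≤ M.d x (g • x) := by
  classical
  have hne : ∃ n : ℕ, ∃ p : V, M.d p (g • p) = n := by
    obtain ⟨n, hn⟩ := Int.eq_ofNat_of_zero_le
      (M.nonneg (Classical.arbitrary V) (g • (Classical.arbitrary V)))
    exact ⟨n, _, hn⟩
  obtain ⟨p, hpn⟩ := Nat.find_spec hne
  refine ⟨p, fun x => ?_⟩
  obtain ⟨m, hm⟩ := Int.eq_ofNat_of_zero_le (M.nonneg x (g • x))
  have := Nat.find_min' hne ⟨x, hm⟩
  rw [hpn, hm]; exact_mod_cast this

/-- LOXODROMIC ELEMENTS.  If `g` moves every point by at least `ℓ ≥ 4δ+1` then its powers move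
every point by at least `j (ℓ - 3δ)`.  (`1 ≤ δ` is needed: a swap of the two ends of an edge
is a counterexample for `δ = 0`, `ℓ = 1`, `j = 2`.)
PROOF: choose `x₀` minimizing `d x (g • x) =: m ≥ ℓ` (values are integers `≥ 0`).  Let `p` be
between `x₀` and `g x₀` with `d x₀ p = m / 2` (`geo`).  `p` and `g p` satisfy
`d p (g x₀) = m - m/2`, `d (g x₀) (g p) = m/2`, so `m ≤ d p (g p) = m - E (g x₀) p (g p)`, i.e.
`E (g x₀) p (g p) ≤ 0`.  `hyp_E` twice at `g x₀`:
`0 ≥ E (g x₀) p (g p) ≥ min (E (g x₀) p x₀) (E (g x₀) x₀ (g² x₀)) (E (g x₀) (g² x₀) (g p)) - 2δ`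
and `E (g x₀) p x₀ = 2 (m - m/2)`, `E (g x₀) (g² x₀) (g p) = 2 (m/2)` (as
`d(g² x₀, g p) = m - m/2`), both `> 2δ`.  Hence `E (g x₀) x₀ (g² x₀) ≤ 2δ`.  `chain_length` for
`x i = g^i x₀` with `a = 2δ`: `j (m - 3δ) ≤ d x₀ (g^j x₀)`.  Then `stable'`. -/
theorem lox (hi : M.Inv G) (h : M.Hyp δ) (hδ : 1 ≤ δ) (g : G) (ℓ : ℤ) (hℓ : 4 * δ + 1 ≤ ℓ)
    (hd : ∀ x, ℓ ≤ M.d x (g • x)) (x : V) (j : ℕ) :
    j * (ℓ - 3 * δ) ≤ M.d x (g ^ j • x) := by
  have : Nonempty V := ⟨x⟩
  obtain ⟨x₀, hmin⟩ := M.exists_min_disp g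
  set m := M.d x₀ (g • x₀) with hm
  have hmℓ : ℓ ≤ m := hd x₀
  obtain ⟨p, hp1, hp2⟩ := M.geo x₀ (g • x₀) (m / 2) (by omega) (by omega)
  rw [← hm] at hp2
  have hp3 : M.d (g • x₀) (g • p) = m / 2 := by rw [hi, hp1]
  have hp4 : M.d (g • p) (g • g • x₀) = m - m / 2 := by rw [hi, hp2]
  have hp5 : M.d (g • x₀) (g • g • x₀) = m := by rw [hi]
  have hp6 := hmin p
  have hE : M.E (g • x₀) x₀ (g • g • x₀) ≤ 2 * δ := by
    have e1 := M.hyp_E h (g • x₀) (g • p) x₀ p
    have e2 := M.hyp_E h (g • x₀) x₀ (g • g • x₀) (g • p)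
    have s1 := M.symm x₀ p
    have s2 := M.symm x₀ (g • x₀)
    have s3 := M.symm p (g • x₀)
    have s4 := M.symm (g • p) (g • x₀)
    have s5 := M.symm (g • p) (g • g • x₀)
    have s6 := M.symm (g • x₀) (g • g • x₀)
    have s7 := M.symm p (g • p)
    have s8 := M.symm x₀ (g • p)
    have s9 := M.symm x₀ (g • g • x₀)
    unfold E at *
    omega
  have hlen : ∀ b : ℕ, (m - 3 * δ) * b - 0 ≤ M.d x₀ (g ^ b • x₀) := by
    intro b
    have hE' : ∀ i : ℕ, M.E (g ^ (i + 1) • x₀) (g ^ i • x₀) (g ^ (i + 2) • x₀) ≤ 2 * δ := by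
      intro i
      have e1 : g ^ (i + 1) • x₀ = g ^ i • g • x₀ := by rw [pow_succ, mul_smul]
      have e2 : g ^ (i + 2) • x₀ = g ^ i • g • g • x₀ := by
        rw [pow_add, mul_smul, pow_two, mul_smul]
      rw [e1, e2, hi.E]
      exact hE
    have e := M.chain_length h (a := 2 * δ) (ℓ := m) (fun i => g ^ i • x₀) b
      (fun i _ => hE' i)
      (fun i _ => by
        show m ≤ M.d (g ^ i • x₀) (g ^ (i + 1) • x₀)
        rw [pow_succ, mul_smul, hi]) (by omega) (by omega) (by omega)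
    simp only [pow_zero, one_smul] at e
    have e3 : (b : ℤ) * (m - (2 * δ + δ)) = (m - 3 * δ) * b - 0 := by ring
    rw [e3] at e
    exact e
  have e := M.stable' hi g x₀ 0 (m - 3 * δ) hlen x j
  have e1 : (j : ℤ) * (ℓ - 3 * δ) ≤ (m - 3 * δ) * j := by
    have : (0 : ℤ) ≤ j := Int.natCast_nonneg j
    nlinarith
  omega

end IMet
end Burn
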