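import Pool.Agent.Burn.Shift

/-!
# The class of actions   (definitions; basic lemmas are a task)

`InClass n δ A m0 G M` : `G` acts by isometries on the integer geodesic metric space `M`, which
satisfies the four point inequality with defect `δ`; every `g ≠ 1` is either elliptic
(`g ^ n = 1` and the set of points moved by at most `L = 1000 δ` has diameter at most `A`) or
loxodromic (`j ≤ m0 * d x (g^j x)` for all `x`, `j`); and if two nontrivial elements move two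
points at distance more than `A` by at most `L`, they lie in a common cyclic subgroup.
-/

universe u

namespace Burn

/-- uniformly loxodromic -/
def IMet.Lox {V : Type u} (M : IMet V) {G : Type u} [Group G] [MulAction G V] (m0 : ℤ) (g : G) :
    Prop := ∀ (x : V) (j : ℕ), (j : ℤ) ≤ m0 * M.d x (g ^ j • x)

structure InClass (n : ℕ) (δ A m0 : ℤ) (G : Type u) [Group G] {V : Type u} [MulAction G V]
    (M : IMet V) : Prop where
  inv : M.Inv G
  hyp : M.Hyp δ
  c3 : ∀ g : G, g ≠ 1 →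
    (g ^ n = 1 ∧ ∀ x y, M.d x (g • x) ≤ 1000 * δ → M.d y (g • y) ≤ 1000 * δ → M.d x y ≤ A) ∨
      M.Lox m0 g
  c4 : ∀ g h : G, g ≠ 1 → h ≠ 1 → ∀ x y, M.d x (g • x) ≤ 1000 * δ → M.d y (g • y) ≤ 1000 * δ →
    M.d x (h • x) ≤ 1000 * δ → M.d y (h • y) ≤ 1000 * δ → A < M.d x y →
    ∃ z : G, g ∈ Subgroup.zpowers z ∧ h ∈ Subgroup.zpowers z

section
variable {n : ℕ} {δ A m0 : ℤ} {G : Type u} [Group G] {V : Type u} [MulAction G V] {M : IMet V}

/-- a loxodromic element has infinite order (`V` nonempty) -/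
theorem IMet.Lox.pow_ne [Nonempty V] {g : G} (hg : M.Lox m0 g) {j : ℕ} (hj : j ≠ 0) :
    g ^ j ≠ 1 := by
  intro h
  obtain ⟨x⟩ := ‹Nonempty V›
  have h1 := hg x j
  rw [h, one_smul, M.self, mul_zero] at h1
  omega

theorem IMet.Lox.zpow_ne [Nonempty V] {g : G} (hg : M.Lox m0 g) {j : ℤ} (hj : j ≠ 0) :
    g ^ j ≠ 1 := by
  intro h
  have h1 : g ^ j.natAbs = 1 := by
    rcases Int.natAbs_eq j with h2 | h2
    · rw [h2, zpow_natCast] at h; exact h
    · rw [h2, zpow_neg, zpow_natCast, inv_eq_one] at h; exact h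
  exact hg.pow_ne (by omega) h1

theorem IMet.Lox.conj (hi : M.Inv G) {g : G} (hg : M.Lox m0 g) (k : G) :
    M.Lox m0 (k * g * k⁻¹) := by
  intro x j
  have h1 := hg (k⁻¹ • x) j
  have h2 : M.d x ((k * g * k⁻¹) ^ j • x) = M.d (k⁻¹ • x) (g ^ j • k⁻¹ • x) := by
    rw [← hi k⁻¹ x, conj_pow]
    congr 1
    rw [← mul_smul, ← mul_smul]
    congr 1
    group
  rw [h2]; exact h1

/-- displacement of integer powers -/
theorem IMet.disp_zpow (hi : M.Inv G) (g : G) (x : V) (p : ℤ) :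
    M.d x (g ^ p • x) = M.d x (g ^ p.natAbs • x) := by
  rcases Int.natAbs_eq p with h2 | h2
  · conv_lhs => rw [h2, zpow_natCast]
  · conv_lhs => rw [h2, zpow_neg, zpow_natCast]
    rw [← hi (g ^ p.natAbs) x, smul_inv_smul, M.symm]

/-- nontrivial integer powers of a loxodromic element are loxodromic -/
theorem IMet.Lox.zpow (hi : M.Inv G) {g : G} (hg : M.Lox m0 g) {p : ℤ} (hp : p ≠ 0) :
    M.Lox m0 (g ^ p) := by
  intro x j
  have h1 := hg x (p * j).natAbs
  rw [← M.disp_zpow hi, zpow_mul, zpow_natCast, Int.natAbs_mul, Int.natAbs_natCast] at h1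
  have h3 : 1 ≤ p.natAbs := by omega
  have h4 : j ≤ p.natAbs * j := by nlinarith
  have h5 : (j : ℤ) ≤ ((p.natAbs * j : ℕ) : ℤ) := by exact_mod_cast h4
  exact h5.trans h1

/-- if some nontrivial power (`p ≥ 1`) of `g` is loxodromic, `g` has infinite order; hence in the
class, `g` itself is loxodromic -/
theorem InClass.lox_of_zpow [Nonempty V] (hn : n ≠ 0) (H : InClass n δ A m0 G M) {g : G} {p : ℤ}
    (hg : M.Lox m0 (g ^ p)) : M.Lox m0 g := by
  have h1 : g ≠ 1 := by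
    rintro rfl
    exact hg.pow_ne one_ne_zero (by simp)
  rcases H.c3 g h1 with h2 | h2
  · exfalso
    refine hg.pow_ne hn ?_
    rw [← zpow_natCast, ← zpow_mul, mul_comm, zpow_mul, zpow_natCast, h2.1, one_zpow]
  · exact h2

/-- in the class: elements of the second kind = elements with `g^n ≠ 1` -/
theorem InClass.lox_of_pow_ne (H : InClass n δ A m0 G M) {g : G} (hg : g ^ n ≠ 1) :
    M.Lox m0 g := by
  have h1 : g ≠ 1 := by
    rintro rfl
    exact hg (one_pow n)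
  rcases H.c3 g h1 with h2 | h2
  · exact absurd h2.1 hg
  · exact h2

theorem InClass.lox_iff [Nonempty V] (hn : n ≠ 0) (H : InClass n δ A m0 G M) {g : G} :
    M.Lox m0 g ↔ g ^ n ≠ 1 :=
  ⟨fun h => h.pow_ne hn, fun h => H.lox_of_pow_ne h⟩

/-- Bernoulli inequality in integer form -/
theorem bern (a s : ℕ) : a ^ s * (a + s) ≤ a * (a + 1) ^ s := by
  induction s with
  | zero => simp
  | succ s ih =>
    calc a ^ (s + 1) * (a + (s + 1)) = a ^ s * (a ^ 2 + a * s + a) := by ring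
      _ ≤ a ^ s * ((a + s) * (a + 1)) := by
          apply Nat.mul_le_mul_left
          nlinarith
      _ = (a ^ s * (a + s)) * (a + 1) := by ring
      _ ≤ (a * (a + 1) ^ s) * (a + 1) := Nat.mul_le_mul_right _ ih
      _ = a * (a + 1) ^ (s + 1) := by ring

/-- exponential growth with a larger base wins -/
theorem growth {a b : ℕ} {C D D' : ℤ} (ha : 1 ≤ a) (hC : 0 ≤ C) (hD : 0 ≤ D) (hD' : 0 ≤ D')
    (h : ∀ t : ℕ, (b : ℤ) ^ t ≤ C * (2 * (t * D) + (a : ℤ) ^ t * D')) : b ≤ a := by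
  by_contra hab
  push Not at hab
  have ha' : (1 : ℤ) ≤ (a : ℤ) := by exact_mod_cast ha
  have hb' : (a : ℤ) + 1 ≤ (b : ℤ) := by exact_mod_cast hab
  have key : ∀ s : ℕ, ((a : ℤ) + s) ^ 2 ≤ (a : ℤ) ^ 2 * (C * (4 * (s * D) + D')) := by
    intro s
    have h1 := h (s + s)
    have h2 : (a : ℤ) ^ s * (a + s) ≤ a * (a + 1) ^ s := by exact_mod_cast bern a s
    have hpa : (1 : ℤ) ≤ (a : ℤ) ^ s := one_le_pow₀ ha'
    have hpb : ((a : ℤ) + 1) ^ s ≤ (b : ℤ) ^ s := pow_le_pow_left₀ (by omega) hb' s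
    have h3 : (a : ℤ) ^ s * (a + s) ≤ a * (b : ℤ) ^ s :=
      h2.trans (mul_le_mul_of_nonneg_left hpb (by omega))
    have h0 : (0 : ℤ) ≤ (a : ℤ) ^ s * (a + s) := by positivity
    have h4 : ((a : ℤ) ^ s * (a + s)) ^ 2 ≤ (a * (b : ℤ) ^ s) ^ 2 := pow_le_pow_left₀ h0 h3 2
    have h5 : (a * (b : ℤ) ^ s) ^ 2 = (a : ℤ) ^ 2 * (b : ℤ) ^ (s + s) := by ring
    have hpa2 : (1 : ℤ) ≤ (a : ℤ) ^ (s + s) := one_le_pow₀ ha'
    have h6 : C * (2 * (((s + s : ℕ) : ℤ) * D) + (a : ℤ) ^ (s + s) * D') ≤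
        (a : ℤ) ^ (s + s) * (C * (4 * (s * D) + D')) := by
      have e1 : (a : ℤ) ^ (s + s) * (C * (4 * (s * D) + D')) =
        C * ((a : ℤ) ^ (s + s) * (4 * (s * D)) + (a : ℤ) ^ (s + s) * D') := by ring
      rw [e1]
      apply mul_le_mul_of_nonneg_left _ hC
      have hsD : 0 ≤ 4 * ((s : ℤ) * D) := by positivity
      have e2 := le_mul_of_one_le_left hsD hpa2
      push_cast
      linarith
    have h7 : (a : ℤ) ^ (s + s) * ((a : ℤ) + s) ^ 2 ≤
        (a : ℤ) ^ (s + s) * ((a : ℤ) ^ 2 * (C * (4 * (s * D) + D'))) := by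
      calc (a : ℤ) ^ (s + s) * ((a : ℤ) + s) ^ 2 = ((a : ℤ) ^ s * (a + s)) ^ 2 := by ring
        _ ≤ (a : ℤ) ^ 2 * (b : ℤ) ^ (s + s) := h5 ▸ h4
        _ ≤ (a : ℤ) ^ 2 * ((a : ℤ) ^ (s + s) * (C * (4 * (s * D) + D'))) :=
            mul_le_mul_of_nonneg_left (h1.trans h6) (by positivity)
        _ = _ := by ring
    exact le_of_mul_le_mul_left h7 (by omega)
  set W : ℤ := (a : ℤ) ^ 2 * (C * (4 * D + D')) with hW
  have hW0 : 0 ≤ W := by positivity
  have h8 := key (W.toNat + 1)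
  have h9 : ((W.toNat : ℕ) : ℤ) = W := Int.toNat_of_nonneg hW0
  push_cast at h8
  rw [h9] at h8
  have h10 : (a : ℤ) ^ 2 * (C * (4 * ((W + 1) * D) + D')) ≤ W * (W + 1) := by
    have : W * (W + 1) = (a : ℤ) ^ 2 * (C * (4 * ((W + 1) * D) + D' * (W + 1))) := by
      rw [hW]; ring
    rw [this]
    apply mul_le_mul_of_nonneg_left _ (by positivity)
    apply mul_le_mul_of_nonneg_left _ hC
    nlinarith
  nlinarith

/-- one half of `conj_power` -/
theorem conj_power_aux [Nonempty V] (hi : M.Inv G) {u k : G} (hu : M.Lox m0 u) {p q : ℤ}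
    (hp : p ≠ 0) (h : u ^ q = k * u ^ p * k⁻¹) : q.natAbs ≤ p.natAbs := by
  obtain ⟨x⟩ := ‹Nonempty V›
  have hpow : ∀ t : ℕ, u ^ (q ^ t) = k ^ t * u ^ (p ^ t) * (k ^ t)⁻¹ := by
    intro t
    induction t with
    | zero => simp
    | succ t ih =>
      have e1 : u ^ (q ^ (t + 1)) = (u ^ (q ^ t)) ^ q := by rw [pow_succ, zpow_mul]
      have e2 : (u ^ (p ^ t)) ^ q = (u ^ q) ^ (p ^ t) := by rw [← zpow_mul, mul_comm, zpow_mul]
      rw [e1, ih, conj_zpow, e2, h, conj_zpow, ← zpow_mul, ← pow_succ' p t]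
      rw [pow_succ k t, mul_inv_rev]
      simp only [mul_assoc]
  have hm0 : 0 ≤ m0 := by
    have h1 := hu x 1
    have h2 := M.nonneg x (u ^ 1 • x)
    by_contra hneg
    push Not at hneg
    have : m0 * M.d x (u ^ 1 • x) ≤ 0 := mul_nonpos_of_nonpos_of_nonneg hneg.le h2
    push_cast at h1
    omega
  refine growth (C := m0) (D := M.d x (k • x)) (D' := M.d x (u • x)) (by omega) hm0
    (M.nonneg _ _) (M.nonneg _ _) ?_
  intro t
  have h1 := hu x (q ^ t).natAbs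
  rw [← M.disp_zpow hi, hpow t] at h1
  have h2 : (((q ^ t).natAbs : ℕ) : ℤ) = ((q.natAbs : ℕ) : ℤ) ^ t := by
    rw [Int.natAbs_pow]; push_cast; rfl
  rw [h2] at h1
  refine h1.trans (mul_le_mul_of_nonneg_left ?_ hm0)
  have t1 := M.tri x (k ^ t • x) ((k ^ t * u ^ (p ^ t) * (k ^ t)⁻¹) • x)
  have t2 : M.d (k ^ t • x) ((k ^ t * u ^ (p ^ t) * (k ^ t)⁻¹) • x) =
      M.d x (u ^ (p ^ t) • (k ^ t)⁻¹ • x) := by
    rw [mul_assoc, mul_smul, hi, mul_smul]
  have t3 := M.tri x (u ^ (p ^ t) • x) (u ^ (p ^ t) • (k ^ t)⁻¹ • x)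
  have t4 : M.d (u ^ (p ^ t) • x) (u ^ (p ^ t) • (k ^ t)⁻¹ • x) = M.d x (k ^ t • x) := by
    rw [hi, ← hi (k ^ t) x, smul_inv_smul, M.symm]
  have t5 := M.disp_pow_le hi k x t
  have t6 := M.disp_pow_le hi u x (p ^ t).natAbs
  rw [← M.disp_zpow hi] at t6
  have h3 : (((p ^ t).natAbs : ℕ) : ℤ) = ((p.natAbs : ℕ) : ℤ) ^ t := by
    rw [Int.natAbs_pow]; push_cast; rfl
  rw [h3] at t6
  linarith

/-- If `u` is loxodromic and `u = w^p`, `k u k⁻¹ = w^q` then `p = q` or `p = -q`.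
PROOF: `u ≠ 1` so `p, q ≠ 0`; `w` has infinite order.  Suppose `|p| < |q|` (otherwise exchange
the roles, replacing `k` by `k⁻¹`: `w` replaced by `k⁻¹ w k`).  `u^q = w^(pq) = (k u k⁻¹)^p =
k u^p k⁻¹`, so by induction `u^(q^t) = k^t u^(p^t) k^(-t)`.  With `x` any point:
`|q|^t ≤ m0 d(x, u^(q^t) x) ≤ m0 (2 t d(x,k x) + |p|^t d(x, u x))`, impossible for large `t`
since `|q| ≥ |p|+1`.  (Alternatively use stable lengths: `Subadditive.lim` of `d x (u^j x)`.) -/
theorem conj_power [Nonempty V] (hi : M.Inv G) {u w k : G} (hu : M.Lox m0 u) {p q : ℤ}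
    (h1 : u = w ^ p) (h2 : k * u * k⁻¹ = w ^ q) : p = q ∨ p = -q := by
  have hp : p ≠ 0 := by
    rintro rfl
    rw [zpow_zero] at h1
    exact hu.pow_ne one_ne_zero (by rw [h1, one_pow])
  have hu' : M.Lox m0 (k * u * k⁻¹) := hu.conj hi k
  have hq : q ≠ 0 := by
    rintro rfl
    rw [zpow_zero] at h2
    exact hu'.pow_ne one_ne_zero (by rw [h2, one_pow])
  have e : u ^ q = (k * u * k⁻¹) ^ p := by
    rw [h2, ← zpow_mul, mul_comm, zpow_mul, ← h1]
  have e1 : u ^ q = k * u ^ p * k⁻¹ := by rw [e, conj_zpow]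
  have a1 := conj_power_aux hi hu hp e1
  have e2 : (k * u * k⁻¹) ^ p = k⁻¹ * (k * u * k⁻¹) ^ q * (k⁻¹)⁻¹ := by
    rw [← e, conj_zpow]
    group
  have a2 := conj_power_aux hi hu' hq e2
  omega

/-- (ELL) an elliptic element cannot move two far points a little.
PROOF: `g^n = 1`, so `g` is not `Lox` and `c3` gives the diameter bound.  If
`d x y > A + 4R + 8δ + 2` take `z, z'` with `Deep x y 0 r`, `r = 2R+4δ+1`, at distance `r` of `x`
resp. of `y` (`deep_exists`): `d z z' ≥ d x y - 2r > A`.  `deep_infinite` (with `j = n`) gives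
`|sh x g z| < 12 δ`, so `d z (g z) ≤ 15 δ ≤ 1000 δ` (`sh_disp`), the same for `z'`: contradiction. -/
theorem InClass.ell_bound [Nonempty V] (hn : n ≠ 0) (hδ : 1 ≤ δ) (H : InClass n δ A m0 G M)
    {g : G} (hg : g ≠ 1) (hgn : g ^ n = 1) {R : ℤ} (hR : 0 ≤ R) {x y : V}
    (hx : M.d x (g • x) ≤ R) (hy : M.d y (g • y) ≤ R) : M.d x y ≤ A + 4 * R + 8 * δ + 2 := by
  rcases H.c3 g hg with hc | hc
  swap
  · exact absurd hgn (hc.pow_ne hn)
  have hA : 0 ≤ A := by
    by_contra hneg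
    have hall : ∀ z, 4 * δ + 1 ≤ M.d z (g • z) := by
      intro z
      by_contra hz
      have h1 := hc.2 z z (by omega) (by omega)
      rw [M.self] at h1
      omega
    have h2 := M.lox H.inv H.hyp (by omega) g (4 * δ + 1) le_rfl hall x n
    rw [hgn, one_smul, M.self] at h2
    have h3 : (1 : ℤ) ≤ n := by exact_mod_cast Nat.one_le_iff_ne_zero.mpr hn
    nlinarith
  by_contra hlt
  push Not at hlt
  have hdeep : ∀ z, M.Deep x y 0 (2 * R + 4 * δ + 1) z → M.d z (g • z) ≤ 1000 * δ := by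
    intro z hz
    have h1 : |M.sh x g z| < 12 * δ := by
      by_contra h1
      push Not at h1
      have h2 := M.deep_infinite H.inv H.hyp hδ hx hy hz le_rfl hR h1 n
      rw [hgn, one_smul, M.self] at h2
      have h3 : (1 : ℤ) ≤ n := by exact_mod_cast Nat.one_le_iff_ne_zero.mpr hn
      omega
    have h2 := M.sh_disp H.inv H.hyp (by omega) hx hy hz (by omega) le_rfl
    omega
  obtain ⟨z, hz, hz1⟩ := M.deep_exists x y (2 * R + 4 * δ + 1) (2 * R + 4 * δ + 1) le_rfl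
    (by omega) (by omega)
  obtain ⟨z', hz', hz1'⟩ := M.deep_exists x y (2 * R + 4 * δ + 1)
    (M.d x y - (2 * R + 4 * δ + 1)) (by omega) le_rfl (by omega)
  have h3 := hc.2 z z' (hdeep z hz) (hdeep z' hz')
  have h4 := M.tri x z z'
  omega

end
end Burn
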