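import Pool.Agent.Burn.Class

/-!
# Centralizers of loxodromic elements are cyclic   (task)
-/

universe u

namespace Burn

open Filter Topology

variable {n : ℕ} {δ A m0 : ℤ} {G : Type u} [Group G] {V : Type u} [MulAction G V] {M : IMet V}

theorem Cyc.deep_mono {x y z : V} {a r r' : ℤ} (h : M.Deep x y a r z) (hr : r' ≤ r) :
    M.Deep x y a r' z := ⟨h.1, le_trans hr h.2.1, le_trans hr h.2.2⟩

/-- displacement of the points `g^j x` under an element commuting with `g` -/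
theorem Cyc.disp_comm (hi : M.Inv G) {g u : G} (hu : Commute u g) (x : V) (j : ℤ) :
    M.d (g ^ j • x) (u • g ^ j • x) = M.d x (u • x) := by
  have h1 : u * g ^ j = g ^ j * u := (hu.zpow_right j).eq
  rw [smul_smul, h1, mul_smul, hi]

/-- distance of the points `g^(-j) x` and `g^j x` -/
theorem Cyc.far (hi : M.Inv G) {g : G} (hg : M.Lox m0 g) (x : V) (j : ℕ) :
    2 * (j : ℤ) ≤ m0 * M.d (g ^ (-(j : ℤ)) • x) (g ^ (j : ℤ) • x) := by
  have h1 := hg x (2 * j)
  have h2 : M.d (g ^ (-(j : ℤ)) • x) (g ^ (j : ℤ) • x) = M.d x (g ^ (2 * j) • x) := by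
    rw [← hi (g ^ (j : ℤ)) (g ^ (-(j : ℤ)) • x) (g ^ (j : ℤ) • x), smul_smul, smul_smul,
      ← zpow_add, ← zpow_add, add_neg_cancel, zpow_zero, one_smul, ← zpow_natCast g (2 * j)]
    have h3 : ((j : ℤ) + j) = ((2 * j : ℕ) : ℤ) := by push_cast; ring
    rw [h3]
  rw [h2]
  push_cast at h1
  exact h1

/-- constant value of a bounded integer sequence along an ultrafilter -/
theorem Cyc.bdd_const (f : ℕ → ℤ) (B : ℤ) (h : ∀ j, |f j| ≤ B) :
    ∃ c : ℤ, ∀ᶠ j in (hyperfilter ℕ : Filter ℕ), f j = c := by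
  have h1 : ∀ᶠ j in ((hyperfilter ℕ : Ultrafilter ℕ) : Filter ℕ), ∃ a ∈ Set.Icc (-B) B, f j = a :=
    Eventually.of_forall fun j => ⟨f j, abs_le.1 (h j), rfl⟩
  rw [Ultrafilter.eventually_exists_mem_iff (Set.finite_Icc _ _)] at h1
  obtain ⟨a, _, ha⟩ := h1
  exact ⟨a, ha⟩

/-- A quasi-morphism on the centralizer of a loxodromic element `g`.

PROOF.  Fix `x₀`, put `x_j = g^j x₀` (`j : ℤ`), `D_j = d x_{-j} x_j = d x₀ (g^{2j} x₀) ≥ 2j/m0`, so
`D_j → ∞`.  `z_j` := a point between `x_{-j}` and `x_j` at distance `D_j/2` of `x_{-j}`.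
For `u` commuting with `g`: `d x_{±j} (u x_{±j}) = d x₀ (u x₀) =: R_u`.  So for every `r`, `z_j` is
`Deep x_{-j} x_j 0 r` for all large `j`.  Put `β_j u = sh x_{-j} u z_j`;
`|β_j u| ≤ d z_j (u z_j) ≤ R_u + δ` (`disp_btw`), bounded independently of `j`.  Fix a nonprincipal
ultrafilter `ω` on `ℕ`; `β u` := the integer such that `β_j u = β u` for `ω`-almost all `j`
(bounded integer valued function).  Then
(1) `|β (u v) - β u - β v| ≤ 4δ` (`sh_mul`, a = 0);
(2) for `u ≠ 1` and `k ≥ 1`: `k ≤ m0 (|β (u^k)| + 3δ)`.  Indeed `u` is loxodromic: otherwise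
`u^n = 1` (c3) and `ell_bound` for `x_{-j}, x_j` contradicts `D_j → ∞`; hence
`k ≤ m0 d z_j (u^k z_j) ≤ m0 (|β_j (u^k)| + 3δ)` (`sh_disp`).
(3) if `|β u| ≤ 100 δ` and `|β v| ≤ 100 δ`, `u, v ≠ 1`, then `u, v` lie in a common cyclic group:
for `ω`-many (arbitrarily large) `j` take two points `z, z'` between `x_{-j}` and `x_j`, deep, with
`d z z' > A`; by `sh_close` (a = 0) their shifts are within `2δ` of those of `z_j`, so `u` and `v`
move `z, z'` by at most `105 δ ≤ 1000 δ`; apply `c4`. -/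
theorem InClass.quasi [Nonempty V] (hn : n ≠ 0) (hδ : 1 ≤ δ) (hm : 1 ≤ m0)
    (H : InClass n δ A m0 G M) {g : G} (hg : M.Lox m0 g) :
    ∃ β : G → ℤ, (∀ u v, Commute u g → Commute v g → |β (u * v) - β u - β v| ≤ 4 * δ) ∧
      (∀ u, Commute u g → u ≠ 1 → ∀ k : ℕ, (k : ℤ) ≤ m0 * (|β (u ^ k)| + 3 * δ)) ∧
      (∀ u v, Commute u g → Commute v g → u ≠ 1 → v ≠ 1 → |β u| ≤ 100 * δ → |β v| ≤ 100 * δ →
        ∃ z : G, u ∈ Subgroup.zpowers z ∧ v ∈ Subgroup.zpowers z) := by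
  classical
  have hi := H.inv
  have hh := H.hyp
  have hδ0 : 0 ≤ δ := by omega
  obtain ⟨x₀⟩ := (inferInstance : Nonempty V)
  set xm : ℕ → V := fun j => g ^ (-(j : ℤ)) • x₀ with hxm
  set xp : ℕ → V := fun j => g ^ (j : ℤ) • x₀ with hxp
  set D : ℕ → ℤ := fun j => M.d (xm j) (xp j) with hD
  have hD2 : ∀ j : ℕ, 2 * (j : ℤ) ≤ m0 * D j := fun j => Cyc.far hi hg x₀ j
  have hD0 : ∀ j, 0 ≤ D j := fun j => M.nonneg _ _
  -- `D` tends to infinity
  have hlarge : ∀ T : ℤ, ∀ᶠ j in ((hyperfilter ℕ : Ultrafilter ℕ) : Filter ℕ), T ≤ D j := by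
    intro T
    refine Filter.Eventually.filter_mono Nat.hyperfilter_le_atTop ?_
    filter_upwards [eventually_ge_atTop (m0 * T).toNat] with j hj
    by_contra hcon
    push Not at hcon
    have h1 := hD2 j
    have h2 : m0 * T ≤ (j : ℤ) := by
      have := Int.self_le_toNat (m0 * T)
      omega
    have h3 : m0 * D j ≤ m0 * (T - 1) := mul_le_mul_of_nonneg_left (by omega) (by omega)
    have h4 : m0 * (T - 1) = m0 * T - m0 := by ring
    omega
  have hz : ∀ j, ∃ z, M.Deep (xm j) (xp j) 0 (D j / 2) z := by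
    intro j
    have := hD0 j
    obtain ⟨z, hz, _⟩ := M.deep_exists (xm j) (xp j) (D j / 2) (D j / 2) le_rfl
      (by show D j / 2 ≤ D j - D j / 2; omega) (by omega)
    exact ⟨z, hz⟩
  choose z hzd using hz
  set R : G → ℤ := fun u => M.d x₀ (u • x₀) with hR
  have hR0 : ∀ u, 0 ≤ R u := fun u => M.nonneg _ _
  have hRm : ∀ u, Commute u g → ∀ j, M.d (xm j) (u • xm j) ≤ R u := fun u hu j =>
    (Cyc.disp_comm hi hu x₀ _).le
  have hRp : ∀ u, Commute u g → ∀ j, M.d (xp j) (u • xp j) ≤ R u := fun u hu j =>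
    (Cyc.disp_comm hi hu x₀ _).le
  have hdeep : ∀ r : ℤ, ∀ᶠ j in ((hyperfilter ℕ : Ultrafilter ℕ) : Filter ℕ),
      M.Deep (xm j) (xp j) 0 r (z j) := by
    intro r
    filter_upwards [hlarge (2 * r)] with j hj
    exact Cyc.deep_mono (hzd j) (by omega)
  have hbdd : ∀ u, Commute u g → ∀ j, |M.sh (xm j) u (z j)| ≤ R u + δ := by
    intro u hu j
    refine (M.abs_sh_le _ _ _).trans ?_
    have h1 := M.disp_btw hh (xm j) (xp j) (z j) (u • xm j) (u • xp j) (u • z j)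
      (hi _ _ _) (hi _ _ _)
    have h2 := (hzd j).1
    have h3 := hRm u hu j
    have h4 := hRp u hu j
    omega
  have hβ : ∀ u : G, ∃ c : ℤ, Commute u g →
      ∀ᶠ j in ((hyperfilter ℕ : Ultrafilter ℕ) : Filter ℕ), M.sh (xm j) u (z j) = c := by
    intro u
    by_cases hu : Commute u g
    · obtain ⟨c, hc⟩ := Cyc.bdd_const (fun j => M.sh (xm j) u (z j)) (R u + δ) (hbdd u hu)
      exact ⟨c, fun _ => hc⟩
    · exact ⟨0, fun h => absurd h hu⟩
  choose β hβ using hβ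
  have hlox : ∀ u, Commute u g → u ≠ 1 → M.Lox m0 u := by
    intro u hu hu1
    rcases H.c3 u hu1 with h | h
    · exfalso
      obtain ⟨j, hj⟩ := (hlarge (A + 4 * R u + 8 * δ + 3)).exists
      have := H.ell_bound hn hδ hu1 h.1 (hR0 u) (hRm u hu j) (hRp u hu j)
      have h5 : M.d (xm j) (xp j) = D j := rfl
      omega
    · exact h
  refine ⟨β, ?_, ?_, ?_⟩
  · intro u v hu hv
    obtain ⟨j, ⟨⟨h1, h2⟩, h3⟩, h4⟩ := (((hβ (u * v) (hu.mul_left hv)).and (hβ u hu)).and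
      (hβ v hv) |>.and (hdeep (R u + R v + 0 + 4 * δ + 1))).exists
    have := M.sh_mul hi hh hδ0 (hRm u hu j) (hRm v hv j) (hRp v hv j) h4 le_rfl le_rfl
      (hR0 u) (hR0 v)
    rw [h1, h2, h3] at this
    simpa using this
  · intro u hu hu1 k
    have huk : Commute (u ^ k) g := hu.pow_left k
    obtain ⟨j, h1, h4⟩ := ((hβ (u ^ k) huk).and (hdeep (R (u ^ k) + 0 + 2 * δ + 1))).exists
    have h5 := M.sh_disp hi hh hδ0 (hRm _ huk j) (hRp _ huk j) h4 le_rfl le_rfl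
    rw [h1] at h5
    have h6 := hlox u hu hu1 (z j) k
    refine h6.trans (mul_le_mul_of_nonneg_left ?_ (by omega))
    omega
  · intro u v hu hv hu1 hv1 hbu hbv
    set r : ℤ := R u + R v + 0 + 2 * δ + 1 with hr
    have hr0 : 0 ≤ r := by have := hR0 u; have := hR0 v; omega
    obtain ⟨j, ⟨⟨h1, h2⟩, h3⟩, h4⟩ := (((hβ u hu).and (hβ v hv)).and
      (hdeep r) |>.and (hlarge (2 * r + |A| + 1))).exists
    have hA := abs_nonneg A
    have hA' := le_abs_self A
    have h5 : M.d (xm j) (xp j) = D j := rfl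
    obtain ⟨y, hy, hyt⟩ := M.deep_exists (xm j) (xp j) r r le_rfl (by omega) hr0
    obtain ⟨y', hy', hyt'⟩ := M.deep_exists (xm j) (xp j) r (r + |A| + 1) (by omega) (by omega) hr0
    have key : ∀ w, Commute w g → R w + 0 + 2 * δ + 1 ≤ r → |M.sh (xm j) w (z j)| ≤ 100 * δ →
        ∀ y, M.Deep (xm j) (xp j) 0 r y → M.d y (w • y) ≤ 1000 * δ := by
      intro w hw hrw hbw y hy
      have e1 := M.sh_close hi hh hδ0 (hRm w hw j) hy h3 hrw le_rfl
      have e2 := M.sh_disp hi hh hδ0 (hRm w hw j) (hRp w hw j) hy hrw le_rfl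
      have e3 := abs_le.1 e1
      have e4 := abs_le.1 hbw
      have e5 : |M.sh (xm j) w y| ≤ 102 * δ := abs_le.2 ⟨by omega, by omega⟩
      omega
    have hru : R u + 0 + 2 * δ + 1 ≤ r := by have := hR0 v; omega
    have hrv : R v + 0 + 2 * δ + 1 ≤ r := by have := hR0 u; omega
    refine H.c4 u v hu1 hv1 y y' (key u hu hru (by rw [h1]; exact hbu) y hy)
      (key u hu hru (by rw [h1]; exact hbu) y' hy') (key v hv hrv (by rw [h2]; exact hbv) y hy)
      (key v hv hrv (by rw [h2]; exact hbv) y' hy') ?_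
    have t := M.tri (xm j) y y'
    omega

/-- abstract form of the argument for (CYC) -/
theorem Cyc.abstract (C : Subgroup G) (β : G → ℤ) (κ E m : ℤ) (hκ : 0 ≤ κ) (hm : 1 ≤ m)
    (hq : ∀ u ∈ C, ∀ v ∈ C, |β (u * v) - β u - β v| ≤ κ)
    (hlow : ∀ u ∈ C, u ≠ 1 → ∀ k : ℕ, (k : ℤ) ≤ m * (|β (u ^ k)| + E))
    (hcyc : ∀ u ∈ C, ∀ v ∈ C, u ≠ 1 → v ≠ 1 → |β u| ≤ 5 * κ → |β v| ≤ 5 * κ →
      ∃ z : G, u ∈ Subgroup.zpowers z ∧ v ∈ Subgroup.zpowers z) :
    ∃ w ∈ C, ∀ u ∈ C, u ∈ Subgroup.zpowers w := by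
  classical
  -- growth of powers
  have hpow : ∀ u ∈ C, ∀ k : ℕ, |β (u ^ k) - k * β u| ≤ (k + 1) * κ := by
    intro u hu k
    induction k with
    | zero =>
      have h1 := hq 1 C.one_mem 1 C.one_mem
      rw [mul_one] at h1
      have h2 := abs_le.1 h1
      simp only [pow_zero, Nat.cast_zero, zero_mul, zero_add, one_mul, sub_zero]
      exact abs_le.2 ⟨by omega, by omega⟩
    | succ k ih =>
      have h1 := abs_le.1 (hq (u ^ k) (C.pow_mem hu k) u hu)
      rw [← pow_succ] at h1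
      have h2 := abs_le.1 ih
      rw [abs_le]
      push_cast
      constructor <;> nlinarith [h1.1, h1.2, h2.1, h2.2]
  set ω : Filter ℕ := ((hyperfilter ℕ : Ultrafilter ℕ) : Filter ℕ) with hω
  have hωt : ω ≤ atTop := Nat.hyperfilter_le_atTop
  have hdiv : ∀ c : ℝ, Tendsto (fun k : ℕ => c / (k : ℝ)) ω (𝓝 0) := fun c =>
    (tendsto_const_div_atTop_nhds_zero_nat c).mono_left hωt
  have hpos : ∀ᶠ k : ℕ in ω, 0 < (k : ℝ) := by
    refine Filter.Eventually.filter_mono hωt ?_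
    filter_upwards [eventually_gt_atTop 0] with k hk
    exact_mod_cast hk
  have hκr : (0 : ℝ) ≤ κ := by exact_mod_cast hκ
  -- homogenization
  have hlim : ∀ u : G, ∃ s : ℝ, u ∈ C → Tendsto (fun k : ℕ => (β (u ^ k) : ℝ) / k) ω (𝓝 s) := by
    intro u
    by_cases hu : u ∈ C
    · set B : ℝ := |(β u : ℝ)| + 2 * κ with hB
      have hB0 : 0 ≤ B := by positivity
      have hmem : ∀ k : ℕ, (β (u ^ k) : ℝ) / k ∈ Set.Icc (-B) B := by
        intro k
        rw [Set.mem_Icc, ← abs_le]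
        rcases Nat.eq_zero_or_pos k with rfl | hk
        · simp [hB0]
        · have hk' : (1 : ℝ) ≤ k := by exact_mod_cast hk
          rw [abs_div, Nat.abs_cast, div_le_iff₀ (by linarith)]
          have h1 : |(β (u ^ k) : ℝ) - k * β u| ≤ (k + 1) * κ := by exact_mod_cast hpow u hu k
          have h2 : |(β (u ^ k) : ℝ)| ≤ |(β (u ^ k) : ℝ) - k * β u| + |(k : ℝ) * β u| := by
            have := abs_add_le ((β (u ^ k) : ℝ) - k * β u) (k * β u)
            simpa using this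
          rw [abs_mul, Nat.abs_cast] at h2
          nlinarith [abs_nonneg (β u : ℝ)]
      obtain ⟨s, _, hs⟩ := isCompact_Icc.ultrafilter_le_nhds
        ((hyperfilter ℕ).map (fun k : ℕ => (β (u ^ k) : ℝ) / k))
        (by
          rw [le_principal_iff]
          exact Filter.mem_map.2 (Filter.univ_mem' hmem))
      exact ⟨s, fun _ => hs⟩
    · exact ⟨0, fun h => absurd h hu⟩
  choose σ hσ using hlim
  -- comparison principle
  have hcomp : ∀ (f h : ℕ → ℝ) (a b c : ℝ), Tendsto f ω (𝓝 a) → Tendsto h ω (𝓝 b) →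
      (∀ k : ℕ, 0 < (k : ℝ) → |f k - h k| ≤ c / k) → a = b := by
    intro f h a b c hf hh hc
    have h1 : Tendsto (fun k => f k - h k) ω (𝓝 0) := by
      refine squeeze_zero_norm' ?_ (hdiv c)
      filter_upwards [hpos] with k hk
      rw [Real.norm_eq_abs]
      exact hc k hk
    have h2 := tendsto_nhds_unique h1 (hf.sub hh)
    linarith
  have hσmul : ∀ u ∈ C, ∀ v ∈ C, Commute u v → σ (u * v) = σ u + σ v := by
    intro u hu v hv huv
    refine hcomp _ _ _ _ κ (hσ _ (C.mul_mem hu hv)) ((hσ u hu).add (hσ v hv)) ?_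
    intro k hk
    rw [huv.mul_pow, ← add_div, ← sub_div, abs_div, Nat.abs_cast, div_le_div_iff_of_pos_right hk]
    have h1 := hq (u ^ k) (C.pow_mem hu k) (v ^ k) (C.pow_mem hv k)
    have h2 : |(β (u ^ k * v ^ k) : ℝ) - β (u ^ k) - β (v ^ k)| ≤ κ := by exact_mod_cast h1
    rw [← sub_sub]
    exact h2
  have hσconj : ∀ u ∈ C, ∀ v ∈ C, σ (v * u * v⁻¹) = σ u := by
    intro u hu v hv
    have hvi := C.inv_mem hv
    refine hcomp _ _ _ _ (|β v| + |β v⁻¹| + 2 * κ : ℤ)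
      (hσ _ (C.mul_mem (C.mul_mem hv hu) hvi)) (hσ u hu) ?_
    intro k hk
    rw [conj_pow, ← sub_div, abs_div, Nat.abs_cast, div_le_div_iff_of_pos_right hk]
    have hk1 := C.pow_mem hu k
    have h1 := abs_le.1 (hq v hv (u ^ k) hk1)
    have h2 := abs_le.1 (hq (v * u ^ k) (C.mul_mem hv hk1) v⁻¹ hvi)
    have h3 : |β (v * u ^ k * v⁻¹) - β (u ^ k)| ≤ |β v| + |β v⁻¹| + 2 * κ := by
      have a1 := le_abs_self (β v)
      have a2 := neg_abs_le (β v)
      have a3 := le_abs_self (β v⁻¹)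
      have a4 := neg_abs_le (β v⁻¹)
      exact abs_le.2 ⟨by omega, by omega⟩
    exact_mod_cast h3
  have hmr : (0 : ℝ) < m := by exact_mod_cast (by omega : 0 < m)
  have hσlow : ∀ u ∈ C, u ≠ 1 → 1 / (m : ℝ) ≤ |σ u| := by
    intro u hu hu1
    have h1 : Tendsto (fun k : ℕ => |(β (u ^ k) : ℝ) / k| + (E : ℝ) / k) ω (𝓝 (|σ u| + 0)) :=
      (hσ u hu).abs.add (hdiv E)
    rw [add_zero] at h1
    refine ge_of_tendsto h1 ?_
    filter_upwards [hpos] with k hk
    rw [abs_div, Nat.abs_cast, ← add_div, div_le_div_iff₀ hmr hk, one_mul]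
    have h2 : ((k : ℤ) : ℝ) ≤ (m * (|β (u ^ k)| + E) : ℤ) := by exact_mod_cast hlow u hu hu1 k
    push_cast at h2
    linarith
  have hσne : ∀ u ∈ C, u ≠ 1 → σ u ≠ 0 := by
    intro u hu hu1 h0
    have h1 := hσlow u hu hu1
    rw [h0, abs_zero] at h1
    have h2 : 0 < 1 / (m : ℝ) := by positivity
    linarith
  have hσzpow : ∀ u ∈ C, ∀ p : ℤ, σ (u ^ p) = p * σ u := by
    intro u hu p
    let φ : ℤ →+ ℝ := AddMonoidHom.mk' (fun p => σ (u ^ p)) (by
      intro p q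
      rw [zpow_add]
      exact hσmul _ (C.zpow_mem hu p) _ (C.zpow_mem hu q)
        ((Commute.refl u).zpow_zpow p q))
    have h1 : φ p = p • φ 1 := by
      rw [← map_zsmul, smul_eq_mul, mul_one]
    have h2 : φ p = σ (u ^ p) := rfl
    have h3 : φ 1 = σ u := by
      show σ (u ^ (1 : ℤ)) = σ u
      rw [zpow_one]
    rw [← h2, h1, h3, zsmul_eq_mul]
  -- small elements are central
  have hcentral : ∀ u ∈ C, u ≠ 1 → |β u| ≤ 3 * κ → ∀ v ∈ C, v * u = u * v := by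
    intro u hu hu1 hbu v hv
    have hu' : v * u * v⁻¹ ∈ C := C.mul_mem (C.mul_mem hv hu) (C.inv_mem hv)
    have hu'1 : v * u * v⁻¹ ≠ 1 := by
      intro h
      exact hu1 (conj_eq_one_iff.1 h)
    have h1 := abs_le.1 (hq v hv u hu)
    have h2 := abs_le.1 (hq (v * u * v⁻¹) hu' v hv)
    rw [inv_mul_cancel_right] at h2
    have h3 := abs_le.1 hbu
    obtain ⟨w, ⟨p, hp⟩, ⟨q, hqq⟩⟩ := hcyc u hu _ hu' hu1 hu'1 (abs_le.2 ⟨by omega, by omega⟩)
      (abs_le.2 ⟨by omega, by omega⟩)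
    simp only at hp hqq
    have h4 : u ^ q = (v * u * v⁻¹) ^ p := by
      rw [← hqq, ← hp, ← zpow_mul, ← zpow_mul, mul_comm]
    have h5 : (q : ℝ) * σ u = p * σ u := by
      rw [← hσzpow u hu q, h4, hσzpow _ hu' p, hσconj u hu v hv]
    have h6 : q = p := by
      have := mul_right_cancel₀ (hσne u hu hu1) h5
      exact_mod_cast this
    have h7 : v * u * v⁻¹ = u := by rw [← hqq, ← hp, h6]
    exact mul_inv_eq_iff_eq_mul.1 h7
  -- `C` is abelian
  have habel : ∀ a ∈ C, ∀ b ∈ C, a * b = b * a := by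
    intro a ha b hb
    by_contra hne
    have hcomm : ∀ x ∈ C, ∀ y ∈ C, |β (x * y * x⁻¹ * y⁻¹)| ≤ 3 * κ := by
      intro x hx y hy
      have h1 := abs_le.1 (hq x hx y hy)
      have h2 := abs_le.1 (hq y hy x hx)
      have h3 := abs_le.1 (hq (x * y * x⁻¹ * y⁻¹) (C.mul_mem (C.mul_mem (C.mul_mem hx hy)
        (C.inv_mem hx)) (C.inv_mem hy)) (y * x) (C.mul_mem hy hx))
      have h4 : x * y * x⁻¹ * y⁻¹ * (y * x) = x * y := by group
      rw [h4] at h3
      exact abs_le.2 ⟨by omega, by omega⟩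
    set u := a * b * a⁻¹ * b⁻¹ with hu
    have huC : u ∈ C := C.mul_mem (C.mul_mem (C.mul_mem ha hb) (C.inv_mem ha)) (C.inv_mem hb)
    have hu1 : u ≠ 1 := by
      intro h
      apply hne
      rw [hu, mul_inv_eq_one, mul_inv_eq_iff_eq_mul] at h
      exact h
    have hcen := hcentral u huC hu1 (hcomm a ha b hb)
    have hpw : ∀ k : ℕ, a ^ k * b * (a ^ k)⁻¹ = u ^ k * b := by
      intro k
      induction k with
      | zero => simp
      | succ k ih =>
        have h1 : a ^ (k + 1) * b * (a ^ (k + 1))⁻¹ = a * (a ^ k * b * (a ^ k)⁻¹) * a⁻¹ := by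
          rw [pow_succ']
          group
        have h2 : a * u ^ k = u ^ k * a := by
          have : Commute a u := hcen a ha
          exact (this.pow_right k).eq
        have h3 : a * b * a⁻¹ = u * b := by rw [hu]; group
        calc a ^ (k + 1) * b * (a ^ (k + 1))⁻¹ = a * (u ^ k * b) * a⁻¹ := by rw [h1, ih]
          _ = (a * u ^ k) * b * a⁻¹ := by rw [← mul_assoc a]
          _ = u ^ k * (a * b * a⁻¹) := by rw [h2]; simp only [mul_assoc]
          _ = u ^ (k + 1) * b := by rw [h3, pow_succ, mul_assoc (u ^ k) u b]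
    have hbk : ∀ k : ℕ, |β (u ^ k)| ≤ 3 * κ := by
      intro k
      have h1 := hcomm (a ^ k) (C.pow_mem ha k) b hb
      rw [hpw k, mul_inv_cancel_right] at h1
      exact h1
    have h8 := hlow u huC hu1 (m * (3 * κ + |E|) + 1).toNat
    have h9 := hbk (m * (3 * κ + |E|) + 1).toNat
    have h10 : m * (|β (u ^ (m * (3 * κ + |E|) + 1).toNat)| + E) ≤ m * (3 * κ + |E|) :=
      mul_le_mul_of_nonneg_left (by have := le_abs_self E; omega) (by omega)
    have h11 := Int.self_le_toNat (m * (3 * κ + |E|) + 1)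
    omega
  -- the image of `σ`
  let S : AddSubgroup ℝ :=
    { carrier := {s | ∃ u ∈ C, σ u = s}
      add_mem' := by
        rintro _ _ ⟨u, hu, rfl⟩ ⟨v, hv, rfl⟩
        exact ⟨u * v, C.mul_mem hu hv, hσmul u hu v hv (habel u hu v hv)⟩
      zero_mem' := ⟨1, C.one_mem, by
        have := hσzpow 1 C.one_mem 0
        simpa using this⟩
      neg_mem' := by
        rintro _ ⟨u, hu, rfl⟩
        refine ⟨u⁻¹, C.inv_mem hu, ?_⟩
        have := hσzpow u hu (-1)
        simpa using this }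
  have hSd : Disjoint (S : Set ℝ) (Set.Ioo 0 (1 / (m : ℝ))) := by
    rw [Set.disjoint_left]
    rintro _ ⟨u, hu, rfl⟩ ⟨h1, h2⟩
    have hu1 : u ≠ 1 := by
      rintro rfl
      have h3 := hσzpow 1 C.one_mem 0
      simp at h3
      rw [h3] at h1
      exact lt_irrefl _ h1
    have h4 := hσlow u hu hu1
    rw [abs_of_pos h1] at h4
    linarith
  obtain ⟨b, hb⟩ := AddSubgroup.cyclic_of_isolated_zero (by positivity : 0 < 1 / (m : ℝ)) hSd
  have hbS : b ∈ S := by rw [hb]; exact AddSubgroup.subset_closure rfl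
  obtain ⟨w, hw, hwb⟩ := hbS
  refine ⟨w, hw, ?_⟩
  intro u hu
  have h1 : σ u ∈ S := ⟨u, hu, rfl⟩
  rw [hb, AddSubgroup.mem_closure_singleton] at h1
  obtain ⟨k, hk⟩ := h1
  rw [zsmul_eq_mul, ← hwb, ← hσzpow w hw] at hk
  have hwk := C.zpow_mem hw k
  have h2 : σ (u * (w ^ k)⁻¹) = 0 := by
    rw [hσmul u hu _ (C.inv_mem hwk) (habel _ hu _ (C.inv_mem hwk)), ← hk]
    have := hσzpow (w ^ k) hwk (-1)
    rw [zpow_neg_one] at this
    rw [this]
    push_cast
    ring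
  have h3 : u * (w ^ k)⁻¹ = 1 := by
    by_contra h
    exact hσne _ (C.mul_mem hu (C.inv_mem hwk)) h h2
  exact ⟨k, (mul_inv_eq_one.1 h3).symm⟩

/-- (CYC) The centralizer of a loxodromic element is cyclic.

PROOF.  `C` := centralizer of `g`, `β` from `quasi`.  Homogenize: `σ u := ω-lim_k β (u^k) / k`
(real; the sequence is bounded by `|β u| + 4δ` because `|β (u^k) - k β u| ≤ 4δ k`; `ω` a
nonprincipal ultrafilter on `ℕ`, or use that the sequence is Cauchy).  Properties on `C`: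
(i) `σ (u v) = σ u + σ v` if `u`, `v` commute (`β ((uv)^k) = β (u^k v^k)`, error `4δ/k → 0`), in
particular `σ (u^m) = m σ u` for `m : ℤ`;
(ii) `σ (v u v⁻¹) = σ u` (error `8δ/k`, `β (v⁻¹)` bounded);
(iii) `|σ u| ≥ 1/m0` for `u ≠ 1` (by (2) of `quasi`).
`C` is ABELIAN: let `a b ∈ C`, `u = a b a⁻¹ b⁻¹`, suppose `u ≠ 1`.  `a b = u (b a)` gives
`|β u| ≤ 12 δ`.  For `v ∈ C` put `u' = v u v⁻¹ ≠ 1`; `v u = u' v` gives `|β u'| ≤ |β u| + 8δ ≤ 20δ`.
By (3), `u = w^p`, `u' = w^q`; then `u^q = u'^p`, so `q σ u = p σ u' = p σ u`, `p = q`, `u' = u`.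
So `u` commutes with all of `C`; hence `a^k b a^(-k) b⁻¹ = u^k` for all `k`, and by the same
estimate `|β (u^k)| ≤ 12 δ` for all `k`, contradicting (2) for large `k`.
`C` is CYCLIC: `σ` restricted to the abelian group `C` is a homomorphism to `ℝ`, injective with
`|σ u| ≥ 1/m0` for `u ≠ 1`, so its image is a discrete, hence cyclic subgroup of `ℝ`
(`AddSubgroup.cyclic_of_isolated_zero` / `AddSubgroup.dense_or_cyclic`). -/
theorem InClass.cyc [Nonempty V] (hn : n ≠ 0) (hδ : 1 ≤ δ) (hm : 1 ≤ m0)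
    (H : InClass n δ A m0 G M) {g : G} (hg : M.Lox m0 g) :
    ∃ w : G, ∀ u : G, Commute u g ↔ u ∈ Subgroup.zpowers w := by
  obtain ⟨β, h1, h2, h3⟩ := H.quasi hn hδ hm hg
  have hC : ∀ u : G, u ∈ Subgroup.centralizer {g} ↔ Commute u g := by
    intro u
    rw [Subgroup.mem_centralizer_singleton_iff]
    exact Iff.rfl
  obtain ⟨w, hw, hw2⟩ := Cyc.abstract (Subgroup.centralizer {g}) β (4 * δ) (3 * δ) m0 (by omega) hm
    (fun u hu v hv => h1 u v ((hC u).1 hu) ((hC v).1 hv))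
    (fun u hu hu1 k => h2 u ((hC u).1 hu) hu1 k)
    (fun u hu v hv hu1 hv1 hbu hbv => h3 u v ((hC u).1 hu) ((hC v).1 hv) hu1 hv1
      (by omega) (by omega))
  refine ⟨w, fun u => ⟨fun hu => hw2 u ((hC u).2 hu), ?_⟩⟩
  rintro ⟨k, rfl⟩
  exact ((hC w).1 hw).zpow_left k

end Burn
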