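import Pool.Agent.Burn.FourHat

/-!
# Exactness: large separation forces geodesics through the apex   (task)
-/

universe u

namespace Burn
namespace HSys

/-- (EXACTNESS)
PROOF.  `K = KA 16 2000`, `W = 4K + dh`, `ρ0 = W + 3` (as a natural number, and `≥ 2`),
`T1 ρ = 463 * (2 * 2^W + 2^ρ * (2W + 2ρ)) + 4 * 463 * 2^ρ * ρ + 2000` (anything larger is fine).
Suppose `E (apex e) u v ≠ 0`; show `sepH e u v < T1`.
(a) `u = base a`, `v = base b`, `972 < sep e a b`: `p = proj e a`, `q = proj e b`.  `proj_L`,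
`proj_L'`, `add_E`: `E p a b ≤ 2K`, `E q a b ≤ 2K` in the cone-off.  Let `w` be between `a` and `b`
with `d̂ a w = min (d̂ a p) (d̂ a b)`; `G1`: `d̂ w p ≤ 4K + dh = W` (`d̂ a p ≤ d̂ a b + 2K`).  Let `w'`
be between `w` and `b` (if `d̂ a q ≥ d̂ a w`) or between `a` and `w` (otherwise) with
`d̂ a w' = min (d̂ a q) (d̂ a b)`; it is between `a` and `b`, so `d̂ w' q ≤ W`.  `w` is not an apex
since `d̂ (base p) (apex c) ≥ ρ > W`; `near_base`: `sepH e p w ≤ 463 * 2^W`; same for `w'`.  The apex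
of `e` is not between `w` and `w'` (it would be between `a` and `b`), so by `sep_path`
`sepH e w w' ≤ 463 * 2^ρ * d̂ w w'` and `d̂ w w' ≤ 2W + d̂ p q ≤ 2W + 2ρ`.  Sum up (`sep e a p = 0`,
`sep e q b = 0`).
(b) general `u, v`, different from `apex e`.  If `u` is over `c ≠ e` (`lev c` or `apex c`): if `v` is
over the same `c`, `sepH e u v ≤ 463` (`proj_small`); otherwise `gate` (for `c`, between `v` and `u`)
gives `a ∈ Y c` between, `sepH e u (base a) ≤ 463`, and `E (apex e) (base a) v ≠ 0`.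
If `u = lev e ..`: if `v = lev e ..` too, `d̂ u v ≤ 2ρ` (through the apex) and `sep_path`; otherwise
`gate` (for `e`) gives `a ∈ Y e` between `u` and `v`, `d̂ u a ≤ 2ρ`, `sep_path` for `u, base a`.
Replace `v` in the same way. -/
theorem exact_exists : ∃ (ρ0 : ℕ) (T1 : ℕ → ℤ), 2 ≤ ρ0 ∧ (∀ ρ, 1000 ≤ T1 ρ) ∧
    ∀ {X C : Type u} (S : HSys X C), S.Strong → ∀ (ρ : ℕ) (_ : ρ0 ≤ ρ) (hρ : 2 ≤ ρ) [Nonempty X]
      (e : C) (u v : HV S ρ), u ≠ .apex e → v ≠ .apex e → T1 ρ ≤ S.sepH ρ e u v →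
      (S.hat ρ hρ).E (.apex e) u v = 0 := by
  sorry

end HSys

noncomputable def rho0 : ℕ := (HSys.exact_exists.{u}).choose
noncomputable def T1 : ℕ → ℤ := (HSys.exact_exists.{u}).choose_spec.choose

theorem two_le_rho0 : 2 ≤ rho0.{u} := (HSys.exact_exists.{u}).choose_spec.choose_spec.1
theorem T1_ge (ρ : ℕ) : 1000 ≤ T1.{u} ρ := (HSys.exact_exists.{u}).choose_spec.choose_spec.2.1 ρ

theorem HSys.exact {X C : Type u} (S : HSys X C) (hS : S.Strong) (ρ : ℕ) (h0 : rho0.{u} ≤ ρ)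
    (hρ : 2 ≤ ρ) [Nonempty X] (e : C) (u v : HV S ρ) (hu : u ≠ .apex e) (hv : v ≠ .apex e)
    (h : T1.{u} ρ ≤ S.sepH ρ e u v) : (S.hat ρ hρ).E (.apex e) u v = 0 :=
  (HSys.exact_exists.{u}).choose_spec.choose_spec.2.2 S hS ρ h0 hρ e u v hu hv h

end Burn
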