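import Pool.Agent.Burn.HatPath

/-!
# Adding hairs   (task)
-/

universe u

namespace Burn
namespace HSys

/-- (HAIR EXTENSION) Attach to every `y ∈ Y e` a bi-infinite line (for every `e`).

CONSTRUCTION.  `X' = X ⊕ {(e, y, k) : y ∈ Y e, k : ℤ, k ≠ 0}`.  foot of `(e,y,k)` is `y`,
height `|k|`; points of `X` have height `0` and are their own feet.
`d' u v = |k - k'|` if `u = (e,y,k)`, `v = (e,y,k')` are on the same line, and
`height u + height v + d (foot u) (foot v)` otherwise (also if one or both are in `X`).
`Y' e = Y e ∪ {(e, y, k)}`.  Retraction `r` = foot, `ι` = inclusion.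
* metric axioms and geodesics: easy.
* four points with the same defect: put `D u v = d' u v - height u - height v`
`= d (foot u) (foot v) - 2 m u v` with `m u v = min |k| |k'|` if `u, v` are on the same line with
`k k' > 0`, `0` otherwise.  The inequality for `d'` is equivalent to the one for `D` (each point
occurs once on each side).  If no cross term `m` is positive clear (`m ≥ 0`).  If e.g. `m u₁ u₃ > 0`
the feet coincide and the claim is `m u₁ u₂ + m u₃ u₄ ≥ min (..)`, minimum rules on one ray.
* `qc`: a point between two points of `Y' e` is in `Y' e`, or in `X` and between two points of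
`Y e` (their feet).
* `ov` with `1 + 42 q` from `Strong` (`1 + 40 q`): if `u` is within `q` of `Y' e` and of `Y' e'`,
`e ≠ e'`, then its height is `≤ q` (its line belongs to at most one of them, and the way to the
other set passes through the foot), its foot is within `q` of `Y e` and `Y e'`; so
`d' u v ≤ q + q + (1 + 40 q)`.  (If `q < 0` the hypotheses are absurd.)
* `Hair`: given `y, p ∈ Y' e`: if `p` is on the line of `y` (through the same foot, for this `e`)
move from `y` by `t` in the direction away from `p`; otherwise move by `t` away from the foot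
(any direction if `y` is the foot). -/
theorem hair_extension {X C : Type u} (S : HSys X C) (hS : S.Strong) :
    ∃ (X' : Type u) (S' : HSys X' C) (ι : X → X') (r : X' → X), S'.Hair ∧
      (∀ x y, S'.M.d (ι x) (ι y) = S.M.d x y) ∧ (∀ e x, x ∈ S.Y e → ι x ∈ S'.Y e) ∧
      (∀ x, r (ι x) = x) ∧ (∀ u v, S.M.d (r u) (r v) ≤ S'.M.d u v) ∧
      (∀ e u, u ∈ S'.Y e → r u ∈ S.Y e) := by
  sorry

/-- If two systems are related by such `ι` and `r` then the four point inequality for the cone-off
of `S'` implies the one of `S`, with the same constant.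
PROOF: `ι` induces a map of the vertices of the cone-offs sending edges to edges, `r` induces a map
sending edges to edges or to points, and `r ∘ ι = id`, so the first map is isometric
(`IMet.lip`-style induction on distances, `hat_one`). -/
theorem hyp_of_retract {X X' C : Type u} (S : HSys X C) (S' : HSys X' C) (ι : X → X')
    (r : X' → X) (h1 : ∀ x y, S'.M.d (ι x) (ι y) = S.M.d x y)
    (h2 : ∀ e x, x ∈ S.Y e → ι x ∈ S'.Y e) (h3 : ∀ x, r (ι x) = x)
    (h4 : ∀ u v, S.M.d (r u) (r v) ≤ S'.M.d u v) (h5 : ∀ e u, u ∈ S'.Y e → r u ∈ S.Y e)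
    (ρ : ℕ) (hρ : 2 ≤ ρ) [Nonempty X] [Nonempty X'] (K : ℤ) (h : (S'.hat ρ hρ).Hyp K) :
    (S.hat ρ hρ).Hyp K := by
  sorry

end HSys
end Burn
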