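import Pool.Agent.Burn.FourX
import Pool.Agent.Burn.Hair

/-!
# The cone-off is hyperbolic with a constant independent of `ρ`   (task)
-/

universe u

namespace Burn
namespace HSys

/-- (EXTENSION PROPERTY) in the presence of hairs, every geodesic ending at a vertex `v` can be
almost prolonged to a base point.

PROOF.  `K = KA 16 2000`.  If `v = base x` take `b = x` (`E v a v = 0`).  Let `v` be over `e`:
`v = pt e y s`, `1 ≤ s ≤ ρ` (`s = ρ` is the apex, `y` any point of `Y e`).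
If `a = apex e`: if also `v = apex e`, any `b`; otherwise `b = y`: `E v a b = 0`.
(i) `a = base a₀`, or `a` over some `c ≠ e`: let `p₀ = proj e (bp a)`.  Hair: `b ∈ Y e` with
`d y b = 2^s`, `d p₀ b = d p₀ y + 2^s`.  Let `a' ∈ X` be `a₀` in the first case, and in the second case
a point of `Y c` between `a` and `base b` (`gate` for `c`; `base b` has depth 0); then
`E v a b ≤ E v a' b` (`E_trans` / triangle inequality since `a'` is between `a` and `b`).  Let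
`p = proj e a'`, `d p p₀ ≤ 463` (`proj_small`; in the first case `p = p₀`).  Let `t = d p₀ y` and `σ`
minimal with `t ≤ 2^σ`.
 upper bounds: `d̂ v b ≤ s + 1` (up, one horizontal edge since `d y b = 2^s`);
 `d̂ p₀ v ≤ 2 min(ρ, max(s,σ)) - s + 1` (up to the level `max(s,σ)`, one horizontal edge, down to `s`;
 through the apex if `max(s,σ) ≥ ρ`); so `d̂ p₀ v + d̂ v b ≤ 2 min(ρ, max(s,σ)) + 2`.
 lower bound: `d p₀ b = t + 2^s`, so `sg p₀ b ≥ min(ρ, max(s,σ))` and `d̂ p₀ b ≥ 2 min(ρ,max(s,σ)) - 5`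
 (`sg_le_hat`).  Hence `E v p₀ b ≤ 7`, `E v p b ≤ 7 + 2·463`.
 If `d p b > 972`: `p ∈ L a' b` (`proj_L`; `proj e b = b`), so
 `d̂ a' b ≥ d̂ a' p + d̂ p b - 2K` and `E v a' b ≤ E v p b + 2K`.
 If `d p b ≤ 972`: then `2^s ≤ 972 + 463`, `s ≤ 11`, and `E v a y ≤ 2 d̂ v y ≤ 22`: use `b := y`.
(ii) `a = pt e y' s'` over the same `e`, `1 ≤ s' < ρ`: `b` as before with `p₀ = y'`, `t = d y' y`.
 `d̂ a v + d̂ v b ≤ max(s', 2 min(ρ, max(s,σ)) - s') + 3`: if `σ ≤ max(s,s')`: `d̂ a v ≤ |s - s'| + 1`;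
 otherwise `d̂ a v ≤ 2 min(ρ,σ) - s - s' + 1`.
 lower bounds: `d̂ a b ≥ s'` (`depth_lip`), `d̂ a b ≥ d̂ y' b - s' ≥ 2 min(ρ,max(s,σ)) - 5 - s'`.
So `K' = 2K + 1000` works. -/
theorem ep_exists : ∃ K : ℤ, 0 ≤ K ∧ ∀ {X C : Type u} (S : HSys X C), S.Hair →
    ∀ (ρ : ℕ) (hρ : 2 ≤ ρ) [Nonempty X] (v a : HV S ρ),
    ∃ b : X, (S.hat ρ hρ).E v a (.base b) ≤ K := by
  sorry

/-- PROOF: `K₁` from `fourX_exists`, `K₂` from `ep_exists`.  Given `v₁ v₂ v₃ v₄`: extend `[v₂,v₁]`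
beyond `v₁` to `b₁`: `E v₁ v₂ b₁ ≤ K₂`; then `[b₁,v₂]` beyond `v₂` to `b₂`: `E v₂ b₁ b₂ ≤ K₂`.  So
`d b₁ b₂ ≥ d b₁ v₁ + d v₁ v₂ + d v₂ b₂ - 2K₂`.  The same for `v₃, v₄`.  Then the four point
inequality for `b₁ b₂ b₃ b₄` and `d b₁ b₃ ≤ d b₁ v₁ + d v₁ v₃ + d v₃ b₃` etc. -/
theorem four_hat_hair : ∃ K : ℤ, 0 ≤ K ∧ ∀ {X C : Type u} (S : HSys X C), S.Hair →
    ∀ (ρ : ℕ) (hρ : 2 ≤ ρ) [Nonempty X], (S.hat ρ hρ).Hyp K := by
  sorry

/-- PROOF: `hair_extension`, `four_hat_hair`, `hyp_of_retract`. -/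
theorem four_hat : ∃ K : ℤ, 0 ≤ K ∧ ∀ {X C : Type u} (S : HSys X C), S.Strong →
    ∀ (ρ : ℕ) (hρ : 2 ≤ ρ) [Nonempty X], (S.hat ρ hρ).Hyp K := by
  sorry

end HSys

/-- the hyperbolicity constant of all the cone-offs -/
noncomputable def dh : ℤ := max 2 (HSys.four_hat.{u}).choose

theorem dh_pos : 2 ≤ dh.{u} := le_max_left _ _

theorem HSys.hat_hyp {X C : Type u} (S : HSys X C) (hS : S.Strong) (ρ : ℕ) (hρ : 2 ≤ ρ)
    [Nonempty X] : (S.hat ρ hρ).Hyp dh.{u} := by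
  sorry

end Burn
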