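import Pool.Agent.Burn.Add

/-!
# Four point inequality for base points of the cone-off   (task)
-/

universe u

namespace Burn
namespace HSys

section
variable {X C : Type u} (S : HSys X C) (ρ : ℕ)

/-- logarithmic size, truncated at `ρ` -/
noncomputable def sg (p q : X) : ℤ := min (ρ : ℤ) (Nat.clog 2 (1 + (S.M.d p q).toNat))

theorem sg_nonneg (p q : X) : 0 ≤ S.sg ρ p q := by
  sorry

/-- PROOF: `1 + d p r ≤ 2 max (1 + d p q) (1 + d q r)`. -/
theorem sg_ultra (p q r : X) : S.sg ρ p r ≤ S.sg ρ p q + 1 ∨ S.sg ρ p r ≤ S.sg ρ q r + 1 := by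
  sorry

theorem sg_symm (p q : X) : S.sg ρ p q = S.sg ρ q p := by
  sorry

/-- a quasi-ultrametric satisfies the four point inequality.  PROOF: wlog the smallest of the four
numbers `s a c, s b d, s a d, s b c` is `s a c`; then `s a b ≤ s b c + 1`, `s c d ≤ s a d + 1`. -/
theorem sg_four (a b c d : X) :
    S.sg ρ a b + S.sg ρ c d ≤ S.sg ρ a c + S.sg ρ b d + 2 ∨
      S.sg ρ a b + S.sg ρ c d ≤ S.sg ρ a d + S.sg ρ b c + 2 := by
  sorry

theorem sg_small {p q : X} (h : S.M.d p q ≤ 972) : S.sg ρ p q ≤ 10 := by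
  sorry

variable (hρ : 2 ≤ ρ) [Nonempty X]

/-- PROOF: `s = clog₂ (1 + d)`; if `s = 0` then `p = q`; if `1 ≤ s < ρ`: up to level `s`
(`pt_vert`), one horizontal edge (`pt_hor`), down; if `s ≥ ρ` go through the apex. -/
theorem hat_le_sg (e : C) {p q : X} (hp : p ∈ S.Y e) (hq : q ∈ S.Y e) :
    (S.hat ρ hρ).d (.base p) (.base q) ≤ 2 * S.sg ρ p q + 1 := by
  sorry

/-- PROOF: if `ℓ = d̂ ≥ 2ρ` clear.  Otherwise `base_base` with `n = (ℓ+1)/2`. -/
theorem sg_le_hat (p q : X) :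
    2 * S.sg ρ p q ≤ (S.hat ρ hρ).d (.base p) (.base q) + 5 := by
  sorry

/-- passing through `Y e`.  PROOF: `K = KA 16 2000`; `p = proj e a`, `q = proj e b`;
`p ∈ L a b` and `q ∈ L p b` (`proj_L`, `proj_L'`; `proj e p = p`), `add_E`, `sg_le_hat`. -/
theorem far_pass (e : C) {a b : X} (h : 972 < S.sep e a b) :
    (S.hat ρ hρ).d (.base a) (.base (S.proj e a)) + 2 * S.sg ρ (S.proj e a) (S.proj e b) +
      (S.hat ρ hρ).d (.base (S.proj e b)) (.base b) ≤
      (S.hat ρ hρ).d (.base a) (.base b) + 4 * KA.{u} 16 2000 + 5 := by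
  sorry

end

/-- (FOUR POINTS FOR BASE POINTS)
PROOF.  `a₁ a₂ a₃ a₄`; `m` a center (`IMet.center`) of `a₁ a₂ a₃`: excess at `m` at most `3` for
the three pairs; by `hyp_E` (defect 2) at least two of `E m aᵢ a₄` (`i = 1,2,3`) are `≤ 5`.  So
`m` has excess `≤ 5` for at least five of the six pairs ('good pairs').
Case 1: `m ∈ L 16 2000 aᵢ aⱼ` for all good pairs.  With `fᵢ = d̂ aᵢ m`: `|d̂ aᵢ aⱼ - fᵢ - fⱼ| ≤ 2K` for
good pairs (`add_E`), `d̂ aᵢ aⱼ ≤ fᵢ + fⱼ` for all; so of the three sums two are equal to `Σ f` up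
to `4K` and the third is at most `Σ f`: the inequality holds for all three arrangements.
Case 2: there are a good pair `(i,j)` and `e` with `sep e aᵢ m > 2000`, `sep e m aⱼ > 2000`.  For a
good pair `(i,k)`: `sep e aᵢ aₖ > 1944` (if `sep e m aₖ ≥ 9` by `pass`, otherwise triangle
inequality); the same for good pairs `(j,k)`, and for `(i,j)`.  As at most one pair is not good,
there is `k` with `(i,k)` and `(j,k)` good, so `sep e` is `> 1944 = 2·972` for the three pairs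
of `i,j,k`.  The fourth index is therefore at `sep e ≤ 972` from at most one of them, and all
pairs except at most one satisfy `sep e > 972` ('far').  With `Fᵢ = d̂ aᵢ pᵢ`, `pᵢ = proj e aᵢ`,
`tᵢⱼ = 2 sg pᵢ pⱼ`: `d̂ aᵢ aⱼ ≤ Fᵢ + Fⱼ + tᵢⱼ + 1` always (`hat_le_sg`), and
`d̂ aᵢ aⱼ ≥ Fᵢ + Fⱼ + tᵢⱼ - 4K - 5` for far pairs.  `sg_four`.  If all pairs are far: done.  If `(1,2)`
is not far: the sum containing `d̂ a₁ a₂` is bounded by the max of the other two by `sg_four`; the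
other two are equal up to a constant because `sg p₁ p₂ ≤ 10` (`sg_small`) and `sg_ultra` give
`|sg p₁ p₃ - sg p₂ p₃| ≤ 11`, `|sg p₁ p₄ - sg p₂ p₄| ≤ 11`. -/
theorem fourX_exists : ∃ K : ℤ, 0 ≤ K ∧ ∀ {X C : Type u} (S : HSys X C) (ρ : ℕ) (hρ : 2 ≤ ρ)
    [Nonempty X] (a b c d : X),
    (S.hat ρ hρ).d (.base a) (.base b) + (S.hat ρ hρ).d (.base c) (.base d) ≤
      (S.hat ρ hρ).d (.base a) (.base c) + (S.hat ρ hρ).d (.base b) (.base d) + K ∨
    (S.hat ρ hρ).d (.base a) (.base b) + (S.hat ρ hρ).d (.base c) (.base d) ≤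
      (S.hat ρ hρ).d (.base a) (.base d) + (S.hat ρ hρ).d (.base b) (.base c) + K := by
  sorry

end HSys
end Burn
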