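import Pool.Agent.Burn.IMet

/-!
# Systems of quasi-convex sets, cones, projections

`HSys X C` : a geodesic integer metric on `X` with four point defect `2`, and a family
`Y e` (`e : C`) of nonempty quasi-convex subsets with bounded overlaps.
`HV S ρ` : vertices of the space obtained by gluing combinatorial horoballs of depth `ρ`
(with an apex at depth `ρ`) on the sets `Y e`.
-/

universe u

namespace Burn

/-- Graph metric of a connected graph. -/
noncomputable def IMet.ofGraph {V : Type u} (G : SimpleGraph V) (hc : G.Connected) : IMet V where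
  d x y := (G.dist x y : ℤ)
  nonneg x y := by positivity
  eq_of_zero x y h := by
    have : G.dist x y = 0 := by exact_mod_cast h
    exact (hc.dist_eq_zero_iff).1 this
  self x := by simp
  symm x y := by rw [SimpleGraph.dist_comm]
  tri x y z := by exact_mod_cast hc.dist_triangle
  geo x y k h0 hk := by
    obtain ⟨w, hw⟩ := hc.exists_walk_length_eq_dist x y
    obtain ⟨n, rfl⟩ := Int.eq_ofNat_of_zero_le h0
    have hn : n ≤ G.dist x y := by exact_mod_cast hk
    refine ⟨w.getVert n, ?_, ?_⟩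
    · have h1 : G.dist x (w.getVert n) ≤ n := by
        have := SimpleGraph.dist_le (w.take n)
        rw [SimpleGraph.Walk.take_length] at this
        omega
      have h2 : G.dist (w.getVert n) y ≤ w.length - n := by
        have := SimpleGraph.dist_le (w.drop n)
        rw [SimpleGraph.Walk.drop_length] at this
        omega
      have h3 : G.dist x y ≤ G.dist x (w.getVert n) + G.dist (w.getVert n) y :=
        hc.dist_triangle
      have : G.dist x (w.getVert n) = n := by omega
      exact_mod_cast this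
    · have h1 : G.dist x (w.getVert n) ≤ n := by
        have := SimpleGraph.dist_le (w.take n)
        rw [SimpleGraph.Walk.take_length] at this
        omega
      have h2 : G.dist (w.getVert n) y ≤ w.length - n := by
        have := SimpleGraph.dist_le (w.drop n)
        rw [SimpleGraph.Walk.drop_length] at this
        omega
      have h3 : G.dist x y ≤ G.dist x (w.getVert n) + G.dist (w.getVert n) y :=
        hc.dist_triangle
      have : G.dist (w.getVert n) y = G.dist x y - n := by omega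
      rw [this]; push_cast [hn]; ring

theorem IMet.ofGraph_one {V : Type u} (G : SimpleGraph V) (hc : G.Connected) (x y : V) :
    (IMet.ofGraph G hc).d x y = 1 ↔ G.Adj x y := by
  rw [← SimpleGraph.dist_eq_one_iff_adj]
  show ((G.dist x y : ℤ) = 1) ↔ _
  norm_cast

/-- A function of pairs satisfying the triangle inequality and bounded by `c` on pairs at
distance one is bounded by `c * d`. -/
theorem IMet.lip {V : Type u} (M : IMet V) (D : V → V → ℤ) (c : ℤ)
    (h0 : ∀ x, D x x ≤ 0) (ht : ∀ x y z, D x z ≤ D x y + D y z)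
    (h1 : ∀ x y, M.d x y = 1 → D x y ≤ c) (x y : V) : D x y ≤ c * M.d x y := by
  have key : ∀ n : ℕ, ∀ x y, M.d x y = n → D x y ≤ c * n := by
    intro n
    induction n with
    | zero =>
      intro x y h
      have := M.eq_of_zero x y (by simpa using h)
      subst this; simpa using h0 x
    | succ n ih =>
      intro x y h
      obtain ⟨z, hz1, hz2⟩ := M.geo x y 1 (by norm_num) (by rw [h]; push_cast; omega)
      have := ih z y (by rw [hz2, h]; push_cast; ring)
      have h3 := h1 x z hz1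
      have h4 := ht x z y
      push_cast
      nlinarith
  obtain ⟨n, hn⟩ := Int.eq_ofNat_of_zero_le (M.nonneg x y)
  rw [hn]; exact key n x y hn

/-- Systems of quasi-convex sets with bounded overlap in a space of defect 2. -/
structure HSys (X C : Type u) where
  M : IMet X
  hyp : M.Hyp 2
  Y : C → Set X
  ne : ∀ e, (Y e).Nonempty
  qc : ∀ e y y' z, y ∈ Y e → y' ∈ Y e → M.E z y y' = 0 → ∃ w ∈ Y e, M.d z w ≤ 1
  ov : ∀ e e', e ≠ e' → ∀ (q : ℤ) (u v : X), (∃ w ∈ Y e, M.d u w ≤ q) →
    (∃ w ∈ Y e', M.d u w ≤ q) → (∃ w ∈ Y e, M.d v w ≤ q) → (∃ w ∈ Y e', M.d v w ≤ q) →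
    M.d u v ≤ 1 + 42 * q

namespace HSys

variable {X C : Type u} (S : HSys X C)

/-- the stronger overlap bound which holds for the systems we start from -/
def Strong : Prop := ∀ e e', e ≠ e' → ∀ (q : ℤ) (u v : X), (∃ w ∈ S.Y e, S.M.d u w ≤ q) →
    (∃ w ∈ S.Y e', S.M.d u w ≤ q) → (∃ w ∈ S.Y e, S.M.d v w ≤ q) →
    (∃ w ∈ S.Y e', S.M.d v w ≤ q) → S.M.d u v ≤ 1 + 40 * q

/-- extension property (hairs) -/
def Hair : Prop := ∀ e y p (t : ℕ), y ∈ S.Y e → p ∈ S.Y e →
    ∃ b ∈ S.Y e, S.M.d y b = t ∧ S.M.d p b = S.M.d p y + t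

theorem exists_proj (e : C) (x : X) :
    ∃ p, p ∈ S.Y e ∧ ∀ y ∈ S.Y e, S.M.d x p ≤ S.M.d x y := by
  classical
  have hne : ∃ n : ℕ, ∃ p ∈ S.Y e, S.M.d x p = n := by
    obtain ⟨p, hp⟩ := S.ne e
    obtain ⟨n, hn⟩ := Int.eq_ofNat_of_zero_le (S.M.nonneg x p)
    exact ⟨n, p, hp, hn⟩
  obtain ⟨p, hp, hpn⟩ := Nat.find_spec hne
  refine ⟨p, hp, fun y hy => ?_⟩
  obtain ⟨m, hm⟩ := Int.eq_ofNat_of_zero_le (S.M.nonneg x y)
  have := Nat.find_min' hne ⟨y, hy, hm⟩
  rw [hpn, hm]; exact_mod_cast this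

/-- a nearest point projection -/
noncomputable def proj (e : C) (x : X) : X := (S.exists_proj e x).choose

theorem proj_mem (e : C) (x : X) : S.proj e x ∈ S.Y e := (S.exists_proj e x).choose_spec.1

theorem proj_le (e : C) (x : X) {y : X} (hy : y ∈ S.Y e) :
    S.M.d x (S.proj e x) ≤ S.M.d x y := (S.exists_proj e x).choose_spec.2 y hy

theorem proj_of_mem (e : C) {y : X} (hy : y ∈ S.Y e) : S.proj e y = y := by
  have h1 := S.proj_le e y hy
  rw [S.M.self] at h1
  have h2 := S.M.nonneg y (S.proj e y)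
  exact (S.M.eq_of_zero _ _ (le_antisymm h1 h2)).symm

/-- separation of two points seen from `e` -/
noncomputable def sep (e : C) (x y : X) : ℤ := S.M.d (S.proj e x) (S.proj e y)

theorem sep_nonneg (e : C) (x y : X) : 0 ≤ S.sep e x y := S.M.nonneg _ _
theorem sep_self (e : C) (x : X) : S.sep e x x = 0 := S.M.self _
theorem sep_symm (e : C) (x y : X) : S.sep e x y = S.sep e y x := S.M.symm _ _
theorem sep_tri (e : C) (x y z : X) : S.sep e x z ≤ S.sep e x y + S.sep e y z := S.M.tri _ _ _

/-- points almost between `a` and `b` (excess at most `c`) which are not deep inside one of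
the sets `Y e`. -/
def L (c κ : ℤ) (a b x : X) : Prop :=
  S.M.E x a b ≤ c ∧ ∀ e, S.sep e a x ≤ κ ∨ S.sep e x b ≤ κ

end HSys

/-- vertices of the cone-off -/
inductive HV {X C : Type u} (S : HSys X C) (ρ : ℕ) : Type u
  | base (x : X)
  | lev (e : C) (y : X) (hy : y ∈ S.Y e) (s : ℕ) (h1 : 1 ≤ s) (h2 : s < ρ)
  | apex (e : C)

namespace HSys

variable {X C : Type u} (S : HSys X C) (ρ : ℕ)

/-- adjacency in the cone-off -/
def hadj : HV S ρ → HV S ρ → Prop
  | .base x, .base x' => S.M.d x x' = 1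
  | .base x, .lev _ y _ s _ _ => x = y ∧ s = 1
  | .lev _ y _ s _ _, .base x => x = y ∧ s = 1
  | .lev e y _ s _ _, .lev e' y' _ s' _ _ =>
      e = e' ∧ ((y = y' ∧ (s' = s + 1 ∨ s = s' + 1)) ∨
        (s = s' ∧ y ≠ y' ∧ S.M.d y y' ≤ 2 ^ s))
  | .lev e _ _ s _ _, .apex e' => e = e' ∧ s + 1 = ρ
  | .apex e', .lev e _ _ s _ _ => e = e' ∧ s + 1 = ρ
  | .base _, .apex _ => False
  | .apex _, .base _ => False
  | .apex _, .apex _ => False

theorem hadj_symm {u v : HV S ρ} (h : S.hadj ρ u v) : S.hadj ρ v u := by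
  cases u <;> cases v <;> simp only [hadj] at h ⊢
  · rw [S.M.symm]; exact h
  · exact h
  · exact h
  · obtain ⟨rfl, h | ⟨rfl, h2, h3⟩⟩ := h
    · exact ⟨rfl, Or.inl ⟨h.1.symm, h.2.symm⟩⟩
    · exact ⟨rfl, Or.inr ⟨rfl, Ne.symm h2, by rw [S.M.symm]; exact h3⟩⟩
  · exact h
  · exact h

theorem hadj_irrefl (u : HV S ρ) : ¬ S.hadj ρ u u := by
  cases u <;> simp only [hadj]
  · rw [S.M.self]; norm_num
  · rintro ⟨-, h | h⟩
    · omega
    · exact h.2.1 rfl
  · exact id

def graph : SimpleGraph (HV S ρ) where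
  Adj := S.hadj ρ
  symm := ⟨fun _ _ h => S.hadj_symm ρ h⟩
  loopless := ⟨fun u h => S.hadj_irrefl ρ u h⟩

theorem reach_base (x x' : X) : (S.graph ρ).Reachable (.base x) (.base x') := by
  have key : ∀ n : ℕ, ∀ x x', S.M.d x x' = n →
      (S.graph ρ).Reachable (.base x) (.base x') := by
    intro n
    induction n with
    | zero =>
      intro x x' h
      have := S.M.eq_of_zero x x' (by simpa using h)
      subst this; exact SimpleGraph.Reachable.refl _
    | succ n ih =>
      intro x x' h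
      obtain ⟨z, hz1, hz2⟩ := S.M.geo x x' 1 (by norm_num) (by rw [h]; push_cast; omega)
      have h1 := ih z x' (by rw [hz2, h]; push_cast; ring)
      have h2 : (S.graph ρ).Adj (.base x) (.base z) := hz1
      exact h2.reachable.trans h1
  obtain ⟨n, hn⟩ := Int.eq_ofNat_of_zero_le (S.M.nonneg x x')
  exact key n x x' hn

theorem reach_lev (e : C) (y : X) (hy : y ∈ S.Y e) (s : ℕ) (h1 : 1 ≤ s) (h2 : s < ρ) :
    (S.graph ρ).Reachable (.lev e y hy s h1 h2) (.base y) := by
  induction s with
  | zero => omega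
  | succ s ih =>
    by_cases hs : s = 0
    · subst hs
      have : (S.graph ρ).Adj (.lev e y hy 1 h1 h2) (.base y) := ⟨rfl, rfl⟩
      exact this.reachable
    · have h3 := ih (by omega) (by omega)
      have : (S.graph ρ).Adj (.lev e y hy (s + 1) h1 h2)
          (.lev e y hy s (by omega) (by omega)) := ⟨rfl, Or.inl ⟨rfl, Or.inr rfl⟩⟩
      exact this.reachable.trans h3

theorem connected (hρ : 2 ≤ ρ) [Nonempty X] : (S.graph ρ).Connected := by
  have key : ∀ u : HV S ρ, ∃ x, (S.graph ρ).Reachable u (.base x) := by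
    intro u
    cases u with
    | base x => exact ⟨x, SimpleGraph.Reachable.refl _⟩
    | lev e y hy s h1 h2 => exact ⟨y, S.reach_lev ρ e y hy s h1 h2⟩
    | apex e =>
      obtain ⟨y, hy⟩ := S.ne e
      have : (S.graph ρ).Adj (.apex e) (.lev e y hy (ρ - 1) (by omega) (by omega)) :=
        ⟨rfl, by omega⟩
      exact ⟨y, this.reachable.trans (S.reach_lev ρ e y hy _ _ _)⟩
  refine SimpleGraph.Connected.mk (fun u v => ?_) (nonempty := ⟨.base (Classical.arbitrary X)⟩)
  obtain ⟨x, hx⟩ := key u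
  obtain ⟨y, hy⟩ := key v
  exact hx.trans ((S.reach_base ρ x y).trans hy.symm)

/-- the metric of the cone-off -/
noncomputable def hat (hρ : 2 ≤ ρ) [Nonempty X] : IMet (HV S ρ) :=
  IMet.ofGraph (S.graph ρ) (S.connected ρ hρ)

theorem hat_one (hρ : 2 ≤ ρ) [Nonempty X] (u v : HV S ρ) :
    (S.hat ρ hρ).d u v = 1 ↔ S.hadj ρ u v := IMet.ofGraph_one _ _ _ _

/-- base point of a vertex (for the apex: some point of `Y e`) -/
noncomputable def bp : HV S ρ → X
  | .base x => x
  | .lev _ y _ _ _ _ => y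
  | .apex e => (S.ne e).some

/-- separation of two vertices of the cone-off seen from `e` -/
noncomputable def sepH (e : C) (u v : HV S ρ) : ℤ := S.sep e (S.bp ρ u) (S.bp ρ v)

theorem sepH_nonneg (e : C) (x y : HV S ρ) : 0 ≤ S.sepH ρ e x y := S.sep_nonneg _ _ _
theorem sepH_self (e : C) (x : HV S ρ) : S.sepH ρ e x x = 0 := S.sep_self _ _
theorem sepH_symm (e : C) (x y : HV S ρ) : S.sepH ρ e x y = S.sepH ρ e y x := S.sep_symm _ _ _
theorem sepH_tri (e : C) (x y z : HV S ρ) :
    S.sepH ρ e x z ≤ S.sepH ρ e x y + S.sepH ρ e y z := S.sep_tri _ _ _ _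

/-- depth in the horoball of `e` -/
noncomputable def depth (e : C) : HV S ρ → ℤ
  | .base _ => 0
  | .lev e' _ _ s _ _ => by classical exact if e' = e then (s : ℤ) else 0
  | .apex e' => by classical exact if e' = e then (ρ : ℤ) else 0

end HSys
end Burn
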