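import Pool.Agent.Burn.Proj

/-!
# Basic facts on the cone-off metric   (task)

`H = S.hat ρ hρ`, `H.d u v = 1 ↔ hadj u v` (`hat_one`).  All proofs: look at one edge, then
`IMet.lip`, or induction on `H.d u v` using `H.geo u v 1` (first edge of a geodesic).
-/

universe u

namespace Burn
namespace HSys

variable {X C : Type u} (S : HSys X C) (ρ : ℕ)

/-- level of a vertex -/
def lvl : HV S ρ → ℕ
  | .base _ => 0
  | .lev _ _ _ s _ _ => s
  | .apex _ => ρ

/-- uniform notation for the points over `y ∈ Y e` -/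
def pt (e : C) (y : X) (hy : y ∈ S.Y e) (s : ℕ) : HV S ρ :=
  if h0 : s = 0 then .base y
  else if h1 : s < ρ then .lev e y hy s (by omega) h1 else .apex e

variable (hρ : 2 ≤ ρ) [Nonempty X]

theorem hat_base_le (x x' : X) :
    (S.hat ρ hρ).d (.base x) (.base x') ≤ S.M.d x x' := by
  sorry

theorem pt_vert (e : C) (y : X) (hy : y ∈ S.Y e) (a b : ℕ) (h : a ≤ b) :
    (S.hat ρ hρ).d (S.pt ρ e y hy a) (S.pt ρ e y hy b) ≤ b - a := by
  sorry

theorem pt_apex (e : C) (y : X) (hy : y ∈ S.Y e) (a : ℕ) (ha : a ≤ ρ) :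
    (S.hat ρ hρ).d (S.pt ρ e y hy a) (.apex e) ≤ ρ - a := by
  sorry

/-- horizontal moves -/
theorem pt_hor (e : C) (y y' : X) (hy : y ∈ S.Y e) (hy' : y' ∈ S.Y e) (s : ℕ) (hs : 1 ≤ s)
    (h : S.M.d y y' ≤ 2 ^ s) :
    (S.hat ρ hρ).d (S.pt ρ e y hy s) (S.pt ρ e y' hy' s) ≤ 1 := by
  sorry

theorem depth_nonneg (e : C) (u : HV S ρ) : 0 ≤ S.depth ρ e u := by
  sorry

theorem depth_le (e : C) (u : HV S ρ) : S.depth ρ e u ≤ ρ := by
  sorry

theorem depth_lip (e : C) (u v : HV S ρ) :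
    S.depth ρ e u - S.depth ρ e v ≤ (S.hat ρ hρ).d u v := by
  sorry

theorem lvl_lip (u v : HV S ρ) :
    (S.lvl ρ u : ℤ) - S.lvl ρ v ≤ (S.hat ρ hρ).d u v := by
  sorry

/-- distance to the apex inside the horoball.  PROOF: `pt_apex` and `depth_lip`. -/
theorem apex_pt (e : C) (y : X) (hy : y ∈ S.Y e) (a : ℕ) (ha : a ≤ ρ) :
    (S.hat ρ hρ).d (.apex e) (S.pt ρ e y hy a) = ρ - a := by
  sorry

/-- (GATE) PROOF: induction on `H.d u v` (first edge `u - w` of a geodesic).  If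
`depth e w = 0` use the induction hypothesis and `btw_trans_right`.  If `depth e w > 0`, then
`w = lev e y ..` or `apex e` and `u` has depth 0 for `e`, so adjacency forces `u = base y` with
`y ∈ Y e` and `w = lev e y _ 1`; take this `y`. -/
theorem gate (e : C) (u v : HV S ρ) (hu : S.depth ρ e u = 0) (hv : 0 < S.depth ρ e v) :
    ∃ y ∈ S.Y e, (S.hat ρ hρ).E (.base y) u v = 0 := by
  sorry

/-- distance from an apex to the outside.  PROOF: `depth_lip`. -/
theorem apex_far (e : C) (u : HV S ρ) (hu : S.depth ρ e u = 0) :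
    (ρ : ℤ) ≤ (S.hat ρ hρ).d (.apex e) u := by
  sorry

/-- PROOF: `gate` and `apex_far` twice. -/
theorem apex_apex {e e' : C} (h : e ≠ e') :
    2 * (ρ : ℤ) ≤ (S.hat ρ hρ).d (.apex e) (.apex e') := by
  sorry

/-- vertices near an apex, and vertices far from all apices -/
theorem apex_dist (u : HV S ρ) (e : C) :
    (ρ : ℤ) - S.depth ρ e u ≤ (S.hat ρ hρ).d (.apex e) u := by
  sorry

end HSys
end Burn
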