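import Mathlib

/-!
# Integer valued geodesic metrics and the four point condition

`IMet V` : an integer valued metric on `V` which is geodesic in the discrete sense.
`M.E z x y = d x z + d z y - d x y` is the *excess* at `z` (twice the Gromov product of
`x` and `y` at `z`); `E z x y = 0` says that `z` is between `x` and `y`.
`M.Hyp δ` is the four point inequality with defect `δ`.  Everything is linear integer
arithmetic, so `omega` proves most things once the right instances are given.
-/

universe u v

namespace Burn

structure IMet (V : Type u) where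
  d : V → V → ℤ
  nonneg : ∀ x y, 0 ≤ d x y
  eq_of_zero : ∀ x y, d x y = 0 → x = y
  self : ∀ x, d x x = 0
  symm : ∀ x y, d x y = d y x
  tri : ∀ x y z, d x z ≤ d x y + d y z
  geo : ∀ x y k, 0 ≤ k → k ≤ d x y → ∃ z, d x z = k ∧ d z y = d x y - k

namespace IMet

variable {V : Type u} (M : IMet V)

/-- excess at `z` with respect to `x`, `y` (twice the Gromov product) -/
def E (z x y : V) : ℤ := M.d x z + M.d z y - M.d x y

/-- four point inequality with defect `δ` -/
def Hyp (δ : ℤ) : Prop := ∀ x y z w,
  M.d x y + M.d z w ≤ M.d x z + M.d y w + δ ∨ M.d x y + M.d z w ≤ M.d x w + M.d y z + δ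

theorem E_nonneg (z x y : V) : 0 ≤ M.E z x y := by
  have := M.tri x z y; unfold E; omega

theorem E_comm (z x y : V) : M.E z x y = M.E z y x := by
  have h1 := M.symm x z; have h2 := M.symm z y; have h3 := M.symm x y
  unfold E; omega

theorem E_le_two (z x y : V) : M.E z x y ≤ 2 * M.d x z := by
  have h1 := M.tri z x y; have h2 := M.symm x z
  unfold E; omega

theorem E_le_two' (z x y : V) : M.E z x y ≤ 2 * M.d z y := by
  have h1 := M.tri x y z; have h2 := M.symm y z
  unfold E; omega

theorem E_self_left (x y : V) : M.E x x y = 0 := by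
  have h1 := M.self x; unfold E; omega

theorem E_self_right (x y : V) : M.E y x y = 0 := by
  have h1 := M.self y; unfold E; omega

theorem d_pos {x y : V} (h : x ≠ y) : 1 ≤ M.d x y := by
  have h0 := M.nonneg x y
  have : M.d x y ≠ 0 := fun h' => h (M.eq_of_zero x y h')
  omega

/-- (H') -/
theorem hyp_E {δ : ℤ} (h : M.Hyp δ) (w x y z : V) :
    M.E w x y ≤ M.E w x z + δ ∨ M.E w y z ≤ M.E w x z + δ := by
  have h1 := h x z y w
  have s1 := M.symm z w; have s2 := M.symm z y; have s3 := M.symm w y; have s4 := M.symm x w
  unfold E; omega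

/-- transitivity of between on one side: if `z` is between `x` and `y` and `w` is between
`x` and `z` then `w` is between `x` and `y`. -/
theorem btw_trans_left {x y z w : V} (h1 : M.E z x y = 0) (h2 : M.E w x z = 0) :
    M.E w x y = 0 := by
  have h3 := M.tri x w y; have h4 := M.tri w z y
  unfold E at *; omega

theorem btw_trans_right {x y z w : V} (h1 : M.E z x y = 0) (h2 : M.E w z y = 0) :
    M.E w x y = 0 := by
  have h3 := M.tri x w y; have h4 := M.tri x z w
  unfold E at *; omega

/-- more generally the excesses add -/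
theorem E_trans_left (x y z w : V) : M.E w x y ≤ M.E z x y + M.E w x z := by
  have h4 := M.tri w z y
  unfold E at *; omega

theorem E_trans_right (x y z w : V) : M.E w x y ≤ M.E z x y + M.E w z y := by
  have h4 := M.tri x z w
  unfold E at *; omega

/-- the excess is 2-Lipschitz in `z` -/
theorem E_lip (x y z z' : V) : M.E z' x y ≤ M.E z x y + 2 * M.d z z' := by
  have h1 := M.tri x z z'; have h2 := M.tri z' z y; have h3 := M.symm z z'
  unfold E at *; omega

/-- (G1): two points almost between `x` and `y` at the same distance of `x` are close -/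
theorem G1 {δ : ℤ} (h : M.Hyp δ) (x y z z' : V) {a : ℤ} (h1 : M.E z x y ≤ a)
    (h2 : M.E z' x y ≤ a) : M.d z z' ≤ |M.d x z - M.d x z'| + a + δ := by
  have h3 := h x y z z'
  have s1 := M.symm y z; have s2 := M.symm y z'
  have := le_abs_self (M.d x z - M.d x z')
  have := neg_abs_le (M.d x z - M.d x z')
  unfold E at *; omega

/-- the set of points moved by at most `R` is almost convex: displacement at an almost
between point.  Stated for two arbitrary pairs of points. -/
theorem disp_btw {δ : ℤ} (h : M.Hyp δ) (x y z x' y' z' : V)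
    (hx : M.d x' z' = M.d x z) (hy : M.d z' y' = M.d z y) :
    M.d z z' ≤ M.d x x' + M.E z x y + δ ∨ M.d z z' ≤ M.d y y' + M.E z x y + δ := by
  have h3 := h x y z z'
  have s1 := M.symm y z; have s2 := M.symm y z'; have s3 := M.symm y y'
  have t1 := M.tri x x' z'; have t2 := M.tri z' y' y
  have s4 := M.symm y' y
  unfold E at *; omega

/-- a center of a triple -/
theorem center {δ : ℤ} (h : M.Hyp δ) (hδ : 0 ≤ δ) (x y z : V) :
    ∃ c, M.E c x y = 0 ∧ M.E c x z ≤ δ ∧ M.E c y z ≤ δ + 1 := by
  have s1 := M.symm x y; have s2 := M.symm x z; have s3 := M.symm y z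
  have t1 := M.tri x y z; have t2 := M.tri y x z; have t3 := M.tri x z y
  have n1 := M.nonneg x y; have n2 := M.nonneg x z; have n3 := M.nonneg y z
  obtain ⟨c, hc1, hc2⟩ := M.geo x y ((M.d x y + M.d x z - M.d y z) / 2) (by omega) (by omega)
  refine ⟨c, by unfold E; omega, ?_⟩
  have h3 := h x y z c
  have s4 := M.symm y c; have s5 := M.symm x c; have s6 := M.symm z c; have s7 := M.symm c y
  have s8 := M.symm z y
  unfold E
  omega

/-- a point almost between `x` and `y` is close to a point between `x` and `y` -/
theorem near {δ : ℤ} (h : M.Hyp δ) (x y z : V) :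
    ∃ z', M.E z' x y = 0 ∧ 2 * M.d z z' ≤ M.E z x y + 1 + 2 * δ := by
  have s1 := M.symm x y; have s2 := M.symm x z; have s3 := M.symm y z
  have t1 := M.tri x y z; have t2 := M.tri y x z; have t3 := M.tri x z y
  have n1 := M.nonneg x y; have n2 := M.nonneg x z; have n3 := M.nonneg y z
  obtain ⟨c, hc1, hc2⟩ := M.geo x y ((M.d x z - M.d z y + M.d x y) / 2) (by omega) (by omega)
  refine ⟨c, by unfold E; omega, ?_⟩
  have h3 := h x y z c
  have s4 := M.symm y c; have s5 := M.symm x c; have s6 := M.symm z c; have s7 := M.symm c y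
  have s8 := M.symm z y
  unfold E
  omega

end IMet

/-- `G` acts by isometries -/
def IMet.Inv {V : Type u} (M : IMet V) (G : Type v) [Group G] [MulAction G V] : Prop :=
  ∀ (g : G) (x y : V), M.d (g • x) (g • y) = M.d x y

theorem IMet.Inv.E {V : Type u} {M : IMet V} {G : Type v} [Group G] [MulAction G V]
    (h : M.Inv G) (g : G) (z x y : V) : M.E (g • z) (g • x) (g • y) = M.E z x y := by
  unfold IMet.E; rw [h, h, h]

end Burn
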