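import Pool.Agent.Burn.Cyc

/-!
# No inversions; the acylindricity condition at all scales   (task)
-/

universe u

namespace Burn

variable {n : ℕ} {δ A m0 : ℤ} {G : Type u} [Group G] {V : Type u} [MulAction G V] {M : IMet V}

theorem lc4_conj_zpow {G : Type u} [Group G] (v w : G) (i : ℤ) :
    v * w ^ i * v⁻¹ = (v * w * v⁻¹) ^ i := by
  simp [conj_zpow]

/-- (INV) a loxodromic element is not conjugate to its inverse.
PROOF: let `C(u) = ⟨w⟩` (`cyc`), `u = w^p`, `p ≠ 0`.  `v` normalizes `C(u) = C(u⁻¹)`, so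
`v w v⁻¹ = w^a` and `v⁻¹ w v = w^b`, `w^(ab) = w`, `w` of infinite order, so `a = ±1`.  If `a = 1`
then `v` commutes with `u`, `u = u⁻¹`, impossible.  So `v w v⁻¹ = w⁻¹`.  `v²` commutes with `u`, so
`v² = w^i`; `v` commutes with `v²`: `w^i = w^(-i)`, `i = 0`, `v² = 1`.  `v ≠ 1`.  By `c3` `v^n = 1`
(a loxodromic element has infinite order), `n` odd, so `v = 1`. Contradiction. -/
theorem InClass.no_inv [Nonempty V] (hn : Odd n) (hδ : 1 ≤ δ) (hm : 1 ≤ m0)
    (H : InClass n δ A m0 G M) {u v : G} (hu : M.Lox m0 u) : v * u * v⁻¹ ≠ u⁻¹ := by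
  intro hinv
  have hn0 : n ≠ 0 := by rintro rfl; exact absurd hn (by decide)
  obtain ⟨w, hw⟩ := InClass.cyc hn0 hδ hm H hu
  -- u is a power of w
  obtain ⟨p, hp⟩ := Subgroup.mem_zpowers_iff.mp ((hw u).mp (Commute.refl u))
  have hwu : Commute w u := (hw w).mpr (Subgroup.mem_zpowers w)
  -- w has infinite order
  have hword : ∀ i : ℤ, w ^ i = 1 → i = 0 := by
    intro i hi
    by_contra hne
    apply hu.zpow_ne hne
    rw [← hp, ← zpow_mul, mul_comm, zpow_mul, hi, one_zpow]
  have huinv : u ≠ u⁻¹ := by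
    intro h
    apply hu.pow_ne (j := 2) (by norm_num)
    rw [pow_two]
    nth_rewrite 1 [h]
    exact inv_mul_cancel u
  have hinv' : v⁻¹ * u * v = u⁻¹ := by
    have h1 : v * u⁻¹ * v⁻¹ = u := by
      have := congrArg (fun t => t⁻¹) hinv
      simpa [mul_assoc] using this
    calc v⁻¹ * u * v = v⁻¹ * (v * u⁻¹ * v⁻¹) * v := by rw [h1]
      _ = u⁻¹ := by group
  have hc1 : Commute (v * w * v⁻¹) u := by
    have h1 : Commute (v * w * v⁻¹) (v * u * v⁻¹) := by
      show (v * w * v⁻¹) * (v * u * v⁻¹) = (v * u * v⁻¹) * (v * w * v⁻¹)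
      have := hwu.eq
      calc (v * w * v⁻¹) * (v * u * v⁻¹) = v * (w * u) * v⁻¹ := by group
        _ = v * (u * w) * v⁻¹ := by rw [this]
        _ = _ := by group
    rw [hinv] at h1
    exact Commute.inv_right_iff.mp h1
  have hc2 : Commute (v⁻¹ * w * v) u := by
    have h1 : Commute (v⁻¹ * w * v) (v⁻¹ * u * v) := by
      show (v⁻¹ * w * v) * (v⁻¹ * u * v) = (v⁻¹ * u * v) * (v⁻¹ * w * v)
      have := hwu.eq
      calc (v⁻¹ * w * v) * (v⁻¹ * u * v) = v⁻¹ * (w * u) * v := by group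
        _ = v⁻¹ * (u * w) * v := by rw [this]
        _ = _ := by group
    rw [hinv'] at h1
    exact Commute.inv_right_iff.mp h1
  obtain ⟨a, ha⟩ := Subgroup.mem_zpowers_iff.mp ((hw _).mp hc1)
  obtain ⟨b, hb⟩ := Subgroup.mem_zpowers_iff.mp ((hw _).mp hc2)
  have hab : a * b = 1 := by
    have h1 : w = w ^ (a * b) := by
      calc w = v * (v⁻¹ * w * v) * v⁻¹ := by group
        _ = v * w ^ b * v⁻¹ := by rw [hb]
        _ = (v * w * v⁻¹) ^ b := lc4_conj_zpow v w b
        _ = (w ^ a) ^ b := by rw [ha]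
        _ = w ^ (a * b) := (zpow_mul w a b).symm
    have h2 : w ^ (a * b - 1) = 1 := by
      rw [zpow_sub, zpow_one, ← h1]; exact mul_inv_cancel w
    have := hword _ h2
    omega
  rcases Int.eq_one_or_neg_one_of_mul_eq_one hab with h1 | h1
  · -- v commutes with w
    rw [h1, zpow_one] at ha
    apply huinv
    calc u = w ^ p := hp.symm
      _ = (v * w * v⁻¹) ^ p := by rw [← ha]
      _ = v * w ^ p * v⁻¹ := (lc4_conj_zpow v w p).symm
      _ = v * u * v⁻¹ := by rw [hp]
      _ = u⁻¹ := hinv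
  · rw [h1, zpow_neg_one] at ha
    -- v^2 commutes with w
    have hv2 : Commute (v * v) u := by
      show (v * v) * u = u * (v * v)
      have e1 : v * u = u⁻¹ * v := by
        calc v * u = (v * u * v⁻¹) * v := by group
          _ = u⁻¹ * v := by rw [hinv]
      have e2 : v * u⁻¹ = u * v := by
        have e3 : v * u⁻¹ * v⁻¹ = u := by
          have := congrArg (fun t => t⁻¹) hinv
          simpa [mul_assoc] using this
        calc v * u⁻¹ = (v * u⁻¹ * v⁻¹) * v := by group
          _ = u * v := by rw [e3]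
      calc (v * v) * u = v * (v * u) := by group
        _ = v * (u⁻¹ * v) := by rw [e1]
        _ = (v * u⁻¹) * v := by group
        _ = (u * v) * v := by rw [e2]
        _ = u * (v * v) := by group
    obtain ⟨i, hi⟩ := Subgroup.mem_zpowers_iff.mp ((hw _).mp hv2)
    have hi0 : i = 0 := by
      have e1 : w ^ i = w ^ (-i) := by
        calc w ^ i = v * v := hi
          _ = v * (v * v) * v⁻¹ := by group
          _ = v * w ^ i * v⁻¹ := by rw [hi]
          _ = (v * w * v⁻¹) ^ i := lc4_conj_zpow v w i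
          _ = (w⁻¹) ^ i := by rw [← ha]
          _ = w ^ (-i) := by rw [inv_zpow, zpow_neg]
      have e2 : w ^ (i + i) = 1 := by
        rw [zpow_add]
        nth_rewrite 1 [e1]
        rw [← zpow_add]; simp
      have := hword _ e2
      omega
    have hvv : v * v = 1 := by rw [← hi, hi0, zpow_zero]
    have hv1 : v ≠ 1 := by
      rintro rfl
      apply huinv
      simpa using hinv
    rcases H.c3 v hv1 with h2 | h2
    · obtain ⟨k, hk⟩ := hn
      have h3 := h2.1
      rw [hk, pow_succ, pow_mul, pow_two, hvv, one_pow, one_mul] at h3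
      exact hv1 h3
    · exact h2.pow_ne (j := 2) (by norm_num) (by rw [pow_two]; exact hvv)

/-- If `u` (loxodromic) and `v u v⁻¹` lie in a common cyclic group then `v` commutes with `u`.
PROOF: `conj_power` and `no_inv`. -/
theorem InClass.commute_of_conj [Nonempty V] (hn : Odd n) (hδ : 1 ≤ δ) (hm : 1 ≤ m0)
    (H : InClass n δ A m0 G M) {u v z : G} (hu : M.Lox m0 u) (h1 : u ∈ Subgroup.zpowers z)
    (h2 : v * u * v⁻¹ ∈ Subgroup.zpowers z) : Commute v u := by
  obtain ⟨p, hp⟩ := Subgroup.mem_zpowers_iff.mp h1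
  obtain ⟨q, hq⟩ := Subgroup.mem_zpowers_iff.mp h2
  rcases conj_power H.inv hu hp.symm hq.symm with h | h
  · have h3 : v * u * v⁻¹ = u := by rw [← hq, ← h, hp]
    show v * u = u * v
    calc v * u = (v * u * v⁻¹) * v := by group
      _ = u * v := by rw [h3]
  · exfalso
    apply InClass.no_inv hn hδ hm H hu (v := v)
    rw [← hq, ← hp, h, zpow_neg, inv_inv]

/-- centralizers: if `⟨u⟩` and `⟨v⟩` are in a common cyclic group and both loxodromic then they
have the same centralizer. PROOF: `u = z^p`, `v = z^q`, `z` commutes with both; `z ∈ C(u) = ⟨w⟩`,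
abelian; an element commuting with `u` lies in `⟨w⟩ ∋ z`, so it commutes with `z`, hence with
`v`. -/
theorem InClass.same_centralizer [Nonempty V] (hn : n ≠ 0) (hδ : 1 ≤ δ) (hm : 1 ≤ m0)
    (H : InClass n δ A m0 G M) {u v z : G} (hu : M.Lox m0 u) (hv : M.Lox m0 v)
    (h1 : u ∈ Subgroup.zpowers z) (h2 : v ∈ Subgroup.zpowers z) (k : G) :
    Commute k u ↔ Commute k v := by
  have key : ∀ {u v z : G}, M.Lox m0 u → u ∈ Subgroup.zpowers z → v ∈ Subgroup.zpowers z →
      Commute k u → Commute k v := by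
    intro u v z hu h1 h2 hk
    obtain ⟨w, hw⟩ := InClass.cyc hn hδ hm H hu
    obtain ⟨p, hp⟩ := Subgroup.mem_zpowers_iff.mp h1
    obtain ⟨q, hq⟩ := Subgroup.mem_zpowers_iff.mp h2
    have hzu : Commute z u := by
      rw [← hp]; exact (Commute.refl z).zpow_right p
    obtain ⟨i, hi⟩ := Subgroup.mem_zpowers_iff.mp ((hw z).mp hzu)
    obtain ⟨j, hj⟩ := Subgroup.mem_zpowers_iff.mp ((hw k).mp hk)
    rw [← hq, ← hi, ← hj]
    exact (((Commute.refl w).zpow_left j).zpow_right i).zpow_right q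
  exact ⟨key hu h1 h2, key hv h2 h1⟩

/-- displacement of a product -/
theorem lc4_disp_mul {M : IMet V} (hi : M.Inv G) (g h : G) (x : V) {R S : ℤ}
    (hg : M.d x (g • x) ≤ R) (hh : M.d x (h • x) ≤ S) : M.d x ((g * h) • x) ≤ R + S := by
  have h1 := M.tri x (g • x) ((g * h) • x)
  have h2 : M.d (g • x) ((g * h) • x) = M.d x (h • x) := by
    rw [mul_smul]; exact hi g x (h • x)
  omega

theorem lc4_disp_inv {M : IMet V} (hi : M.Inv G) (g : G) (x : V) {R : ℤ}
    (hg : M.d x (g • x) ≤ R) : M.d x (g⁻¹ • x) ≤ R := by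
  have h1 := hi g x (g⁻¹ • x)
  rw [smul_inv_smul] at h1
  have h2 := M.symm x (g • x)
  omega

/-- (LC4) acylindricity at all scales.
PROOF.  Points `z` with `Deep x y 0 r z`, `r = 8R` (note `1000 δ ≤ R`).  The words below move
`x` and `y` by at most `7R`.  Let `u = g h g⁻¹ h⁻¹`, `u' = g u g⁻¹`.
`sh_mul` (a = 0, error `4δ`): from `g h = u (h g)` : `|sh u z| ≤ 12 δ`; from `g u = u' g`:
`|sh u' z| ≤ 20 δ`.  So `d z (u z) ≤ 15δ`, `d z (u' z) ≤ 23δ` (`sh_disp`).  Choose two such points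
`z, z'` with `d z z' ≥ d x y - 16R > A` (`deep_exists`).
Case `u = 1`: `g`, `h` commute.  If `g^n = 1`: contradiction with `ell_bound`.  So `g` is
loxodromic (`c3`) and `g, h ∈ C(g)`, cyclic by `cyc`.
Case `u ≠ 1`: `u^n ≠ 1` by `ell_bound` applied to `z, z'`, (or by c3), so `u` is loxodromic;
`c4` for `u, u'` and `z, z'` : common cyclic group, so `g` commutes with `u` (`commute_of_conj`).
Similarly (replace `u'` by `h u h⁻¹`) `h` commutes with `u`.  So `g, h ∈ C(u)`, cyclic. -/
theorem InClass.lc4 [Nonempty V] (hn : Odd n) (hδ : 1 ≤ δ) (hm : 1 ≤ m0) (hA : 0 ≤ A)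
    (H : InClass n δ A m0 G M) {g h : G} (hg : g ≠ 1) (hh : h ≠ 1) {R : ℤ}
    (hR : 1000 * δ ≤ R) {x y : V} (hgx : M.d x (g • x) ≤ R) (hgy : M.d y (g • y) ≤ R)
    (hhx : M.d x (h • x) ≤ R) (hhy : M.d y (h • y) ≤ R) (hxy : A + 20 * R < M.d x y) :
    ∃ z : G, g ∈ Subgroup.zpowers z ∧ h ∈ Subgroup.zpowers z := by
  have hn0 : n ≠ 0 := by rintro rfl; exact absurd hn (by decide)
  have hi := H.inv
  have hyp := H.hyp
  have hδ0 : 0 ≤ δ := by omega
  have hR0 : 0 ≤ R := by omega
  by_cases hc : Commute g h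
  · have hgn : g ^ n ≠ 1 := by
      intro hgn
      have := InClass.ell_bound hn0 hδ H hg hgn hR0 hgx hgy
      omega
    have hl := InClass.lox_of_pow_ne H hgn
    obtain ⟨w, hw⟩ := InClass.cyc hn0 hδ hm H hl
    exact ⟨w, (hw g).mp (Commute.refl g), (hw h).mp hc.symm⟩
  · -- the commutator
    obtain ⟨u, hudef⟩ : ∃ u : G, u = g * h * g⁻¹ * h⁻¹ := ⟨_, rfl⟩
    have hu1 : u ≠ 1 := by
      intro h1
      apply hc
      show g * h = h * g
      rw [hudef] at h1
      calc g * h = (g * h * g⁻¹ * h⁻¹) * (h * g) := by group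
        _ = h * g := by rw [h1, one_mul]
    -- displacement of u
    have hdu : ∀ t : V, M.d t (g • t) ≤ R → M.d t (h • t) ≤ R → M.d t (u • t) ≤ 4 * R := by
      intro t h1 h2
      have e1 := lc4_disp_mul hi g h t h1 h2
      have e2 := lc4_disp_mul hi (g * h) g⁻¹ t e1 (lc4_disp_inv hi g t h1)
      have e3 := lc4_disp_mul hi (g * h * g⁻¹) h⁻¹ t e2 (lc4_disp_inv hi h t h2)
      rw [hudef]; omega
    have hux := hdu x hgx hhx
    have huy := hdu y hgy hhy
    -- deep points
    have hshu : ∀ z, M.Deep x y 0 (8 * R) z → |M.sh x u z| ≤ 12 * δ := by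
      intro z hz
      have e1 := M.sh_mul (g := g) (k := h) hi hyp hδ0 hgx hhx hhy hz (by omega) le_rfl hR0 hR0
      have e2 := M.sh_mul (g := h) (k := g) hi hyp hδ0 hhx hgx hgy hz (by omega) le_rfl hR0 hR0
      have e3 := M.sh_mul (g := u) (k := h * g) (Rg := 4 * R) (Rk := R + R) hi hyp hδ0 hux
        (lc4_disp_mul hi h g x hhx hgx) (lc4_disp_mul hi h g y hhy hgy) hz (by omega) le_rfl
        (by omega) (by omega)
      have e4 : u * (h * g) = g * h := by rw [hudef]; group
      rw [e4] at e3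
      rw [abs_le] at e1 e2 e3 ⊢
      omega
    have hconj : ∀ k : G, M.d x (k • x) ≤ R → M.d y (k • y) ≤ R → ∀ z, M.Deep x y 0 (8 * R) z →
        M.d z ((k * u * k⁻¹) • z) ≤ 1000 * δ := by
      intro k hkx hky z hz
      have hd : ∀ t : V, M.d t (k • t) ≤ R → M.d t (u • t) ≤ 4 * R →
          M.d t ((k * u * k⁻¹) • t) ≤ 6 * R := by
        intro t h1 h2
        have e1 := lc4_disp_mul hi k u t h1 h2
        have e2 := lc4_disp_mul hi (k * u) k⁻¹ t e1 (lc4_disp_inv hi k t h1)
        omega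
      have e0 := hshu z hz
      have e1 := M.sh_mul (g := k) (k := u) hi hyp hδ0 hkx hux huy hz (by omega) le_rfl hR0
        (by omega)
      have e2 := M.sh_mul (g := k * u * k⁻¹) (k := k) hi hyp hδ0 (hd x hkx hux) hkx hky hz
        (by omega) le_rfl (by omega) hR0
      have e4 : k * u * k⁻¹ * k = k * u := by group
      rw [e4] at e2
      have e5 := M.sh_disp (g := k * u * k⁻¹) hi hyp hδ0 (hd x hkx hux) (hd y hky huy) hz
        (by omega) le_rfl
      have e6 : |M.sh x (k * u * k⁻¹) z| ≤ 20 * δ := by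
        rw [abs_le] at e0 e1 e2 ⊢
        omega
      omega
    have hudisp : ∀ z, M.Deep x y 0 (8 * R) z → M.d z (u • z) ≤ 1000 * δ := by
      intro z hz
      have e0 := hshu z hz
      have e5 := M.sh_disp (g := u) hi hyp hδ0 hux huy hz (by omega) le_rfl
      omega
    obtain ⟨z, hz, hzt⟩ := M.deep_exists x y (8 * R) (8 * R) le_rfl (by omega) (by omega)
    obtain ⟨z', hz', hzt'⟩ := M.deep_exists x y (8 * R) (M.d x y - 8 * R) (by omega) le_rfl
      (by omega)
    have hzz : A < M.d z z' := by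
      have := M.tri x z z'
      omega
    have hul : M.Lox m0 u := by
      rcases H.c3 u hu1 with h2 | h2
      · have := h2.2 z z' (hudisp z hz) (hudisp z' hz')
        omega
      · exact h2
    have hcomm : ∀ k : G, M.d x (k • x) ≤ R → M.d y (k • y) ≤ R → Commute k u := by
      intro k hkx hky
      have hne : k * u * k⁻¹ ≠ 1 := by
        intro h1
        apply hu1
        calc u = k⁻¹ * (k * u * k⁻¹) * k := by group
          _ = 1 := by rw [h1]; group
      obtain ⟨t, ht1, ht2⟩ := H.c4 u (k * u * k⁻¹) hu1 hne z z' (hudisp z hz) (hudisp z' hz')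
        (hconj k hkx hky z hz) (hconj k hkx hky z' hz') hzz
      exact InClass.commute_of_conj hn hδ hm H hul ht1 ht2
    obtain ⟨w, hw⟩ := InClass.cyc hn0 hδ hm H hul
    exact ⟨w, (hw g).mp (hcomm g hgx hgy), (hw h).mp (hcomm h hhx hhy)⟩

end Burn
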