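import Pool.Agent.Burn.HSys

/-!
# Projections to the sets `Y e`   (task)
-/

universe u

namespace Burn
namespace HSys

variable {X C : Type u} (S : HSys X C)

/-- almost between points of `Y e` are near `Y e`.  PROOF: `IMet.near` and `qc`. -/
theorem qc' (e : C) {y y' z : X} (hy : y ∈ S.Y e) (hy' : y' ∈ S.Y e) :
    ∃ w ∈ S.Y e, 2 * S.M.d z w ≤ S.M.E z y y' + 7 := by
  sorry

/-- (b) PROOF: let `p = proj e x`, `z` between `p` and `y` at distance `t = (E p x y) / 2` of `p`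
(`t ≤ d p y` by `E_le_two'`).  `qc` gives a point of `Y e` at distance `≤ 1` of `z`, so
`d x z ≥ d x p - 1`.  Four points: `d x z + d p y ≤ d x p + d z y + 2` or `≤ d x y + d z p + 2`,
both give `d x z ≤ d x p - t + 2`.  So `t ≤ 3`, `E ≤ 7`. -/
theorem proj_E (e : C) (x : X) {y : X} (hy : y ∈ S.Y e) : S.M.E (S.proj e x) x y ≤ 7 := by
  sorry

/-- (c) PROOF: `p, p'` the projections, `s = d p p'`.  By (b) `d x p' ≥ d x p + s - 7`,
`d x' p ≥ d x' p' + s - 7`.  Four points: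
`d x p' + d x' p ≤ d x x' + d p' p + 2` or `≤ d x p + d p' x' + 2`. -/
theorem proj_dich (e : C) (x x' : X) : S.sep e x x' ≤ 8 ∨
    S.M.d x (S.proj e x) + S.sep e x x' + S.M.d (S.proj e x') x' ≤ S.M.d x x' + 16 := by
  sorry

theorem sep_lip (e : C) (x x' : X) : S.sep e x x' ≤ S.M.d x x' + 16 := by
  sorry

/-- (d) PROOF: immediate from (c) and the triangle inequality. -/
theorem proj_E_le (e : C) {x x' : X} (h : 9 ≤ S.sep e x x') : S.M.E (S.proj e x) x x' ≤ 16 := by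
  sorry

theorem proj_E_le' (e : C) {x x' : X} (h : 9 ≤ S.sep e x x') : S.M.E (S.proj e x') x x' ≤ 16 := by
  sorry

/-- projections of another set are small.  PROOF: if `s = sep ≥ 9` then `p = proj e y`,
`p' = proj e y'` have excess `≤ 16` w.r.t. `y, y' ∈ Y c`, so by `qc'` they are at distance `≤ 11`
of `Y c`; they lie in `Y e`; `ov` with `q = 11`: `s ≤ 1 + 42 * 11 = 463`. -/
theorem proj_small {c e : C} (h : c ≠ e) {y y' : X} (hy : y ∈ S.Y c) (hy' : y' ∈ S.Y c) :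
    S.sep e y y' ≤ 463 := by
  sorry

/-- (Behrstock inequality) PROOF: suppose `sep e x y > 471` for some `y ∈ Y c`.  Let
`z = proj c x`, `p = proj e x`, `w = proj c p`.  `sep e x z ≥ 9` (`proj_small`), so
`E p x z ≤ 16` (d).  As `d x z ≤ d x w ≤ d x p + d p w`: `d p z ≤ d p w + 16`.  (b) at `w`:
`d p z ≥ d p w + d w z - 7`.  So `d w z ≤ 23`, i.e. `sep c x p ≤ 23`; `p, y' ∈ Y e`, so
`sep c x y' ≤ 23 + 463 = 486`. -/
theorem behrstock {c e : C} (h : c ≠ e) (x : X) {y y' : X} (hy : y ∈ S.Y c) (hy' : y' ∈ S.Y e) :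
    S.sep e x y ≤ 486 ∨ S.sep c x y' ≤ 486 := by
  sorry

/-- a point of `Y e` which is almost nearest to `x` is close to `proj e x`. -/
theorem proj_near (e : C) {x p : X} {r : ℤ} (hp : p ∈ S.Y e)
    (h : S.M.d x p ≤ S.M.d x (S.proj e x) + r) : S.M.d (S.proj e x) p ≤ r + 7 := by
  sorry

/-- (Lemma 6.3) PROOF: `p = proj e a, q = proj e x, r = proj e b`.  (c) for `(a,x)` and `(x,b)`:
`d a x ≥ d a p + d p q + d q x - 16`, `d x b ≥ d x q + d q r + d r b - 16`; add, use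
`E x a b` and `d a b ≤ d a p + d p r + d r b`. -/
theorem pass (e : C) {a b x : X} (h1 : 9 ≤ S.sep e a x) (h2 : 9 ≤ S.sep e x b) :
    2 * S.M.d x (S.proj e x) + S.sep e a x + S.sep e x b ≤ S.sep e a b + 32 + S.M.E x a b := by
  sorry

end HSys
end Burn
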