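import Pool.Agent.Burn.Chain

/-!
# Shifts of isometries along long segments   (task)

Fix `x y : V`.  `M.Deep x y a r z` : `z` is almost (excess `≤ a`) between `x` and `y` and at
distance at least `r` from both.  `M.sh x g z = d x (g z) - d x z`.
-/

universe u v

namespace Burn
namespace IMet

variable {V : Type u} (M : IMet V) {δ : ℤ} {G : Type v} [Group G] [MulAction G V]

def Deep (x y : V) (a r : ℤ) (z : V) : Prop :=
  M.E z x y ≤ a ∧ r ≤ M.d x z ∧ r ≤ M.d z y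

def sh (x : V) (g : G) (z : V) : ℤ := M.d x (g • z) - M.d x z

/-- (SH1) PROOF: `E (g z) (g x) (g y) ≤ a`.  `hyp_E` at `g z` for `(g x, g y)` and `x`:
`E (gz) (gx) x ≤ a + δ` or `E (gz) x (gy) ≤ a + δ`.  But
`E (gz) (gx) x = d(gx,gz) + d(gz,x) - d(gx,x) ≥ 2 (d x z - R) > a + 2δ`.  Again for
`(x, g y)` and `y`: `E (gz) x y ≤ a + 2δ` or `E (gz) (gy) y ≤ a+2δ`, the latter impossible. -/
theorem sh_E (hi : M.Inv G) (h : M.Hyp δ) (hδ : 0 ≤ δ) {x y z : V} {a r R : ℤ} {g : G}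
    (hx : M.d x (g • x) ≤ R) (hy : M.d y (g • y) ≤ R) (hz : M.Deep x y a r z)
    (hr : R + a + 2 * δ + 1 ≤ r) (ha : 0 ≤ a) :
    M.E (g • z) x y ≤ a + 2 * δ := by
  obtain ⟨hz1, hz2, hz3⟩ := hz
  have e := hi.E g z x y
  have nR := M.nonneg x (g • x)
  have d1 := hi g x z
  have d2 := hi g z y
  have t1 := M.tri (g • x) x (g • z)
  have t2 := M.tri (g • z) y (g • y)
  have s1 := M.symm x (g • x)
  have s2 := M.symm (g • z) x
  have s3 := M.symm (g • z) (g • x)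
  have s4 := M.symm (g • y) y
  have s5 := M.symm y (g • z)
  have h1 := M.hyp_E h (g • z) (g • x) x (g • y)
  have h2 := M.hyp_E h (g • z) x y (g • y)
  have c1 := M.E_comm (g • z) (g • x) x
  unfold E at *
  omega

/-- the image of a deep point is deep -/
theorem deep_smul (hi : M.Inv G) (h : M.Hyp δ) (hδ : 0 ≤ δ) {x y z : V} {a r R : ℤ} {g : G}
    (hx : M.d x (g • x) ≤ R) (hy : M.d y (g • y) ≤ R) (hz : M.Deep x y a r z)
    (hr : R + a + 2 * δ + 1 ≤ r) (ha : 0 ≤ a) :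
    M.Deep x y (a + 2 * δ) (r - R) (g • z) := by
  refine ⟨M.sh_E hi h hδ hx hy hz hr ha, ?_, ?_⟩
  · obtain ⟨hz1, hz2, hz3⟩ := hz
    have d1 := hi g x z
    have t1 := M.tri (g • x) x (g • z)
    have s1 := M.symm x (g • x)
    omega
  · obtain ⟨hz1, hz2, hz3⟩ := hz
    have d2 := hi g z y
    have t2 := M.tri (g • z) y (g • y)
    omega

/-- (SH2) if `z` is almost between `x` and `z'` then `g z` is almost between `x` and `g z'`.
PROOF: `E (gz) (gx) (gz') ≤ b`, and `E (gz) (gx) x ≥ 2 (d x z - R) > b + δ`; `hyp_E`. -/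
theorem sh_between (hi : M.Inv G) (h : M.Hyp δ) {x z z' : V} {b R : ℤ} {g : G}
    (hx : M.d x (g • x) ≤ R) (hz : M.E z x z' ≤ b) (hr : b + δ < 2 * (M.d x z - R)) :
    M.E (g • z) x (g • z') ≤ b + δ := by
  have e := hi.E g z x z'
  have d1 := hi g x z
  have t1 := M.tri (g • x) x (g • z)
  have s1 := M.symm x (g • x)
  have s2 := M.symm (g • z) x
  have h1 := M.hyp_E h (g • z) (g • x) x (g • z')
  unfold E at *
  omega

/-- (SH3) the shift is almost constant on deep points.  PROOF: wlog `d x z ≤ d x z'`.  By `G1`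
`d z z' ≤ d x z' - d x z + a + δ`, so `b := E z x z' ≤ a + δ`.  By `sh_between`
`E (gz) x (gz') ≤ a + 2δ`.  Now `d x z' - d x z = d z z' - E z x z' ∈ [d z z' - (a+δ), d z z']`
and `d x gz' - d x gz = d z z' - E (gz) x (gz') ∈ [d z z' - (a+2δ), d z z']`. -/
theorem sh_close (hi : M.Inv G) (h : M.Hyp δ) (hδ : 0 ≤ δ) {x y z z' : V} {a r R : ℤ} {g : G}
    (hx : M.d x (g • x) ≤ R) (hz : M.Deep x y a r z) (hz' : M.Deep x y a r z')
    (hr : R + a + 2 * δ + 1 ≤ r) (ha : 0 ≤ a) :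
    |M.sh x g z - M.sh x g z'| ≤ a + 2 * δ := by
  wlog hle : M.d x z ≤ M.d x z' generalizing z z' with H
  · rw [abs_sub_comm]
    exact H hz' hz (by omega)
  obtain ⟨hz1, hz2, hz3⟩ := hz
  obtain ⟨hz1', hz2', hz3'⟩ := hz'
  have g1 := M.G1 h x y z z' hz1 hz1'
  have ab : |M.d x z - M.d x z'| = M.d x z' - M.d x z := by
    rw [abs_of_nonpos (by omega)]; omega
  rw [ab] at g1
  have hb : M.E z x z' ≤ a + δ := by unfold E; omega
  have nR := M.nonneg x (g • x)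
  have h2 := M.sh_between hi h hx hb (by omega)
  have e0 := M.E_nonneg z x z'
  have e1 := M.E_nonneg (g • z) x (g • z')
  have d1 := hi g z z'
  unfold sh
  unfold E at *
  rw [abs_le]
  omega

/-- (SH4) almost additivity.  PROOF: `sh (g*k) z = sh g (k z) + sh k z`; `k z` is deep with
excess `a + 2δ` (deep_smul), and so is `z`; `sh_close` with `a + 2δ`. -/
theorem sh_mul (hi : M.Inv G) (h : M.Hyp δ) (hδ : 0 ≤ δ) {x y z : V} {a r Rg Rk : ℤ} {g k : G}
    (hx : M.d x (g • x) ≤ Rg) (hkx : M.d x (k • x) ≤ Rk)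
    (hky : M.d y (k • y) ≤ Rk) (hz : M.Deep x y a r z)
    (hr : Rg + Rk + a + 4 * δ + 1 ≤ r) (ha : 0 ≤ a) (hg : 0 ≤ Rg) (hk : 0 ≤ Rk) :
    |M.sh x (g * k) z - M.sh x g z - M.sh x k z| ≤ a + 4 * δ := by
  have hd := M.deep_smul hi h hδ hkx hky hz (by omega) ha
  have hz' : M.Deep x y (a + 2 * δ) (r - Rk) z := by
    obtain ⟨h1, h2, h3⟩ := hz
    exact ⟨by omega, by omega, by omega⟩
  have hc := M.sh_close (g := g) hi h hδ hx hd hz' (by omega) (by omega)
  have e : M.sh x (g * k) z - M.sh x g z - M.sh x k z = M.sh x g (k • z) - M.sh x g z := by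
    unfold sh
    rw [mul_smul]
    ring
  rw [e]
  refine hc.trans ?_
  omega

/-- (SH5) the displacement is the absolute value of the shift, almost.  PROOF: triangle
inequality, and `G1` for `z` and `g z` (excesses `≤ a + 2δ`). -/
theorem sh_disp (hi : M.Inv G) (h : M.Hyp δ) (hδ : 0 ≤ δ) {x y z : V} {a r R : ℤ} {g : G}
    (hx : M.d x (g • x) ≤ R) (hy : M.d y (g • y) ≤ R) (hz : M.Deep x y a r z)
    (hr : R + a + 2 * δ + 1 ≤ r) (ha : 0 ≤ a) :
    M.d z (g • z) ≤ |M.sh x g z| + a + 3 * δ := by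
  have h1 := M.sh_E hi h hδ hx hy hz hr ha
  have h2 := M.G1 h x y z (g • z) (a := a + 2 * δ) (by have := hz.1; omega) h1
  have e : |M.d x z - M.d x (g • z)| = |M.sh x g z| := by
    unfold sh; rw [abs_sub_comm]
  rw [e] at h2
  omega

theorem abs_sh_le (x z : V) (g : G) : |M.sh x g z| ≤ M.d z (g • z) := by
  unfold sh
  have t1 := M.tri x z (g • z)
  have t2 := M.tri x (g • z) z
  have s := M.symm z (g • z)
  rw [abs_le]
  omega

/-- (local axis) PROOF: `d z (g² z) ≥ |sh (g*g) z| ≥ 2|sh g z| - 4δ` and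
`d z (g z) ≤ |sh g z| + 3δ`, so `E (gz) z (g²z) = 2 d(z,gz) - d(z,g²z) ≤ 10 δ`. -/
theorem deep_axis (hi : M.Inv G) (h : M.Hyp δ) (hδ : 0 ≤ δ) {x y z : V} {r R : ℤ} {g : G}
    (hx : M.d x (g • x) ≤ R) (hy : M.d y (g • y) ≤ R) (hz : M.Deep x y 0 r z)
    (hr : 2 * R + 4 * δ + 1 ≤ r) (hR : 0 ≤ R) :
    M.E (g • z) z ((g ^ 2) • z) ≤ 10 * δ := by
  have h1 := M.sh_mul (g := g) (k := g) hi h hδ hx hx hy hz (by omega) le_rfl hR hR
  have h2 := M.sh_disp hi h hδ hx hy hz (by omega) le_rfl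
  have h3 := M.abs_sh_le x z (g * g)
  have d1 := hi g z (g • z)
  have e2 : (g ^ 2) • z = (g * g) • z := by rw [pow_two]
  have e3 : (g * g) • z = g • g • z := mul_smul g g z
  rw [abs_le] at h1
  unfold E
  rw [e2, e3]
  rw [e3] at h3
  have h4 : 2 * |M.sh x g z| - 4 * δ ≤ |M.sh x (g * g) z| := by
    rcases abs_cases (M.sh x g z) with ⟨h5, _⟩ | ⟨h5, _⟩ <;>
      rcases abs_cases (M.sh x (g * g) z) with ⟨h6, _⟩ | ⟨h6, _⟩ <;> omega
  omega

/-- (ELL1) if the shift is at least `12 δ` then `g` has infinite order, in the strong form: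
PROOF: chain `x i = g^i z`: excess `≤ 10 δ`, edges `d z (gz) ≥ |sh g z| ≥ 12δ ≥ 10δ + δ + 1`;
`chain_length` with `a = 10δ`, `ℓ = 12 δ`. -/
theorem deep_infinite (hi : M.Inv G) (h : M.Hyp δ) (hδ : 1 ≤ δ) {x y z : V} {r R : ℤ} {g : G}
    (hx : M.d x (g • x) ≤ R) (hy : M.d y (g • y) ≤ R) (hz : M.Deep x y 0 r z)
    (hr : 2 * R + 4 * δ + 1 ≤ r) (hR : 0 ≤ R) (hs : 12 * δ ≤ |M.sh x g z|) (j : ℕ) :
    (j : ℤ) ≤ M.d z (g ^ j • z) := by
  have hax := M.deep_axis hi h (by omega) hx hy hz hr hR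
  have hab := M.abs_sh_le x z g
  have key := M.chain_length h (a := 10 * δ) (ℓ := 12 * δ) (fun i => g ^ i • z) j
    (fun i _ => by
      have e1 : g ^ (i + 1) • z = g ^ i • (g • z) := by rw [pow_succ, mul_smul]
      have e2 : g ^ (i + 2) • z = g ^ i • (g ^ 2 • z) := by rw [pow_add, mul_smul]
      show M.E (g ^ (i + 1) • z) (g ^ i • z) (g ^ (i + 2) • z) ≤ 10 * δ
      rw [e1, e2, hi.E]
      exact hax)
    (fun i _ => by
      have e1 : g ^ (i + 1) • z = g ^ i • (g • z) := by rw [pow_succ, mul_smul]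
      show 12 * δ ≤ M.d (g ^ i • z) (g ^ (i + 1) • z)
      rw [e1, hi]
      omega)
    (by omega) (by omega) (by omega)
  have e0 : M.d ((fun i => g ^ i • z) 0) ((fun i => g ^ i • z) j) = M.d z (g ^ j • z) := by
    simp
  rw [e0] at key
  have h1 : (j : ℤ) * 1 ≤ (j : ℤ) * (12 * δ - (10 * δ + δ)) :=
    mul_le_mul_of_nonneg_left (by omega) (by positivity)
  linarith

/-- existence of deep points at prescribed distance (from `geo`) -/
theorem deep_exists (x y : V) (r t : ℤ) (h1 : r ≤ t) (h2 : t ≤ M.d x y - r) (h0 : 0 ≤ r) :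
    ∃ z, M.Deep x y 0 r z ∧ M.d x z = t := by
  obtain ⟨z, hz1, hz2⟩ := M.geo x y t (by omega) (by omega)
  exact ⟨z, ⟨by unfold E; omega, by omega, by omega⟩, hz1⟩

end IMet
end Burn
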