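import Pool.Agent.Burn.Proj

/-!
# Thinness of the sets `L`   (task)

`S.L c κ a b x` : `E x a b ≤ c` and for every `e`: `sep e a x ≤ κ` or `sep e x b ≤ κ`.
-/

universe u

namespace Burn
namespace HSys

variable {X C : Type u} (S : HSys X C)

/-- projections belong to `L`.  PROOF: `p = proj e a`; `E p a b ≤ 16` by (d).  For `e' = e`:
`sep e a p = 0` (`proj_of_mem`).  For `e' ≠ e`: if `sep e' a p > 486` then by Behrstock
(`c := e`, `e := e'`, `x := a`, `y := p`) `sep e a y' ≤ 486` for `y' ∈ Y e'`; similarly if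
`sep e' p b > 486`; both together give `sep e a b ≤ 972`. -/
theorem proj_L (e : C) {a b : X} {c κ : ℤ} (hc : 16 ≤ c) (hκ : 486 ≤ κ)
    (h : 972 < S.sep e a b) : S.L c κ a b (S.proj e a) := by
  sorry

theorem proj_L' (e : C) {a b : X} {c κ : ℤ} (hc : 16 ≤ c) (hκ : 486 ≤ κ)
    (h : 972 < S.sep e a b) : S.L c κ a b (S.proj e b) := by
  sorry

/-- a variant used in the verification of the tube inequality: two bounds together exclude
every other set.  PROOF as in `proj_L`. -/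
theorem L_of_mem (e : C) {a b p : X} {c κ : ℤ} (hp : p ∈ S.Y e) (hE : S.M.E p a b ≤ c)
    (he : S.sep e a p ≤ κ ∨ S.sep e p b ≤ κ)
    (h : ∀ e', e' ≠ e → S.sep e' a p ≤ κ ∨ S.sep e' p b ≤ κ) : S.L c κ a b p := by
  sorry

theorem L_symm {a b x : X} {c κ : ℤ} (h : S.L c κ a b x) : S.L c κ b a x := by
  sorry

theorem L_mono {a b x : X} {c κ c' κ' : ℤ} (h : S.L c κ a b x) (hc : c ≤ c') (hκ : κ ≤ κ') :
    S.L c' κ' a b x := by
  sorry

/-- (THINNESS) PROOF.  `hyp_E`: `E x a z ≤ c + 2` or `E x z b ≤ c + 2`; by symmetry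
(`L_symm`, exchange `a`, `b`) suppose the first.  `near`: `x₁` between `a` and `z`,
`d x x₁ ≤ h₁ := (c + 7) / 2`; `sep e x x₁ ≤ h₂ := h₁ + 16` for all `e` (`sep_lip`).
If `L c κ a z x₁` done.  Otherwise some `e` has `sep e a x₁ > κ`, `sep e x₁ z > κ`.  By `pass`
(excess 0): `d x₁ (proj e x₁) ≤ 16`, `sep e a z ≥ 2κ - 32 > 972`.
(i) if `sep e a x ≤ κ`: `x' = proj e a ∈ L a z` (`proj_L`) and
`d x x' ≤ h₁ + 16 + sep e x₁ a ≤ h₁ + 16 + h₂ + κ`.
(ii) if `sep e x b ≤ κ` and `sep e z b > 972`: `x' = proj e b ∈ L z b` (`proj_L'`), same bound.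
(iii) if `sep e x b ≤ κ`, `sep e z b ≤ 972`: `sep e x z ≤ κ + 972`, `x' = proj e z ∈ L a z`,
`d x x' ≤ h₁ + 16 + h₂ + κ + 972 ≤ κ + c + 1011`. -/
theorem thin {a b x : X} {c κ : ℤ} (hc : 16 ≤ c) (hκ : 503 ≤ κ) (h : S.L c κ a b x) (z : X) :
    ∃ x', (S.L c κ a z x' ∨ S.L c κ z b x') ∧ S.M.d x x' ≤ κ + c + 1011 := by
  sorry

/-- `L` for two points of the same `Y e`, or for adjacent points.
PROOF: second case: `2 d x a ≤ E x a b + 2 d a b`.  First case: `qc'` gives a point of `Y e` at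
distance `≤ (c+7)/2` of `x`, so `d x (proj e x) ≤ (c+7)/2`; `proj e a = a`, and
`sep e a x ≤ κ` gives `d a x ≤ κ + (c+7)/2`; similarly for `b`. -/
theorem L_hop {a b x : X} {c κ : ℤ} (hc : 0 ≤ c) (hκ : 0 ≤ κ) (h : S.L c κ a b x)
    (hab : S.M.d a b ≤ 1 ∨ ∃ e, a ∈ S.Y e ∧ b ∈ S.Y e) :
    S.M.d x a ≤ κ + c + 4 ∨ S.M.d x b ≤ κ + c + 4 := by
  sorry

end HSys
end Burn
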